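import Pool.Agent.Lib.MP_8622f1_pr.DS.Spec
import Pool.Agent.Lib.MP_8622f1_pr.UN.Spec

set_option autoImplicit false

open Classical Filter Topology

/-!
# MP_8622f1_pr: from the block DS to `UN.SpecDSS` (helper52)
-/

namespace MP8622

namespace DS

namespace BRGM

theorem wf_pos {V : Type} {P : Sym2 V → ℝ} (h1 : ∀ e, P e < 1) (E : Finset (Sym2 V))
    (Λ : Finset V) (b : V → ℝ) (S : Finset V) : 0 < NU.wf P E Λ b S := by
  unfold NU.wf sw
  refine mul_pos (Finset.prod_pos fun e _ => ?_) (Finset.prod_pos fun v _ => Real.exp_pos _)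
  split_ifs
  · exact one_pos
  · have := h1 e
    linarith

theorem sum_wf_pos {V : Type} {P : Sym2 V → ℝ} (h1 : ∀ e, P e < 1) (E : Finset (Sym2 V))
    (Λ : Finset V) (b : V → ℝ) : 0 < ∑ S ∈ Λ.powerset, NU.wf P E Λ b S :=
  Finset.sum_pos (fun S _ => wf_pos h1 E Λ b S) ⟨∅, Finset.empty_mem_powerset Λ⟩

theorem symmDiff_eq {V : Type} {x y : V} (h : x ≠ y) :
    symmDiff ({x} : Finset V) {y} = {x, y} := by
  ext z
  simp only [Finset.mem_symmDiff, Finset.mem_singleton, Finset.mem_insert]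
  constructor
  · rintro (⟨h1, _⟩ | ⟨h1, _⟩)
    · exact Or.inl h1
    · exact Or.inr h1
  · rintro (h1 | h1)
    · exact Or.inl ⟨h1, by rw [h1]; exact h⟩
    · exact Or.inr ⟨h1, by rw [h1]; exact h.symm⟩

theorem arith {W a c d : ℝ} (hW : 0 < W) :
    (a / W - c / W * (d / W)) * W ^ 2 = a * W - c * d := by
  field_simp

end BRGM

open BRGM in
/-- the Ding-Song-Sun inequality in the form used by the block UN -/
theorem specDSS (hT : SpecTRF) (hF : SpecFKC) : UN.SpecDSS := by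
  intro V P E Λ b x y h0 h1 hd hE hx hy hxy
  have hW := sum_wf_pos h1 E Λ b
  have key := arith (a := ∑ S ∈ Λ.powerset, chi {x} S * chi {y} S * NU.wf P E Λ b S)
    (c := ∑ S ∈ Λ.powerset, chi {x} S * NU.wf P E Λ b S)
    (d := ∑ S ∈ Λ.powerset, chi {y} S * NU.wf P E Λ b S) hW
  have hcv : cvf P E Λ b x y * (∑ S ∈ Λ.powerset, NU.wf P E Λ b S) ^ 2 =
      (∑ S ∈ Λ.powerset, chi {x} S * chi {y} S * NU.wf P E Λ b S) *
        (∑ S ∈ Λ.powerset, NU.wf P E Λ b S) -
      (∑ S ∈ Λ.powerset, chi {x} S * NU.wf P E Λ b S) *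
        (∑ S ∈ Λ.powerset, chi {y} S * NU.wf P E Λ b S) := by
    rw [← key]
    rfl
  have hW2 : 0 < (∑ S ∈ Λ.powerset, NU.wf P E Λ b S) ^ 2 := by positivity
  constructor
  · have := mul_nonneg (hF V P E Λ b x y h0 (fun e => (h1 e).le) hx hy) hW2.le
    rw [hcv] at this
    linarith
  · rw [← hcv]
    have h2 := hT V P E Λ b x y h0 h1 hE hx hy hxy
    unfold NU.c2 at h2
    rw [symmDiff_eq hxy] at h2
    exact mul_le_mul_of_nonneg_right h2 hW2.le

end DS

end MP8622
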