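import Pool.Agent.Lib.MP_8622f1_pr.NU.Defs

set_option autoImplicit false

open Classical Filter Topology

/-!
# MP_8622f1_pr, the Ding-Song-Sun inequality: definitions (helper52)

Finite Ising model with pair interaction `J x y ≥ 0` (ordered pairs: the coupling of `x`, `y` is
`KK J x y = J x y + J y x`) and REAL fields `Q` on a finite set `B`; `S` is the set of minus spins.
-/

namespace MP8622

namespace DS

/-- spin at `x`, when `S` is the set of minus spins -/
noncomputable def sp {V : Type} (S : Finset V) (x : V) : ℝ := if x ∈ S then -1 else 1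

/-- (minus) energy -/
noncomputable def En {V : Type} (B : Finset V) (J : V → V → ℝ) (Q : V → ℝ) (S : Finset V) : ℝ :=
  ∑ x ∈ B, ∑ y ∈ B, J x y * (sp S x * sp S y) + ∑ x ∈ B, Q x * sp S x

/-- weighted sum of `F` -/
noncomputable def Su {V : Type} (B : Finset V) (J : V → V → ℝ) (Q : V → ℝ)
    (F : Finset V → ℝ) : ℝ := ∑ S ∈ B.powerset, F S * Real.exp (En B J Q S)

/-- partition function -/
noncomputable def ZZ {V : Type} (B : Finset V) (J : V → V → ℝ) (Q : V → ℝ) : ℝ :=
  ∑ S ∈ B.powerset, Real.exp (En B J Q S)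

/-- free energy -/
noncomputable def LL {V : Type} (B : Finset V) (J : V → V → ℝ) (Q : V → ℝ) : ℝ :=
  Real.log (ZZ B J Q)

/-- expectation -/
noncomputable def ex {V : Type} (B : Finset V) (J : V → V → ℝ) (Q : V → ℝ)
    (F : Finset V → ℝ) : ℝ := Su B J Q F / ZZ B J Q

/-- the coupling between `u` and `v` -/
def KK {V : Type} (J : V → V → ℝ) (u v : V) : ℝ := J u v + J v u

/-- second difference of the free energy at `M` minus second difference at `P` -/
noncomputable def EE {V : Type} (B : Finset V) (J : V → V → ℝ) (h M P : V → ℝ) : ℝ :=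
  (LL B J (M + h) + LL B J (M - h) - 2 * LL B J M) -
    (LL B J (P + h) + LL B J (P - h) - 2 * LL B J P)

/-- half of the difference of the free energies of `B` with the fields `Q ± K` (`K` = couplings to a
removed vertex `u`): `tanh` of it is the magnetisation at `u` -/
noncomputable def cc {V : Type} (B : Finset V) (J : V → V → ℝ) (K Q : V → ℝ) : ℝ :=
  (LL B J (Q + K) - LL B J (Q - K)) / 2

/-- half of the sum of the same free energies -/
noncomputable def kk {V : Type} (B : Finset V) (J : V → V → ℝ) (K Q : V → ℝ) : ℝ :=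
  (LL B J (Q + K) + LL B J (Q - K)) / 2

/-- covariance of the spins at `x` and `y` in the finite system of `NU/Defs.lean` with real fields -/
noncomputable def cvf {V : Type} (P : Sym2 V → ℝ) (E : Finset (Sym2 V)) (Λ : Finset V)
    (b : V → ℝ) (x y : V) : ℝ :=
  (∑ S ∈ Λ.powerset, chi {x} S * chi {y} S * NU.wf P E Λ b S) /
      (∑ S ∈ Λ.powerset, NU.wf P E Λ b S) -
    NU.mf P E Λ b x * NU.mf P E Λ b y

/-! ### Calculus -/

/-- `log (2 cosh x)` -/
noncomputable def ell (x : ℝ) : ℝ := Real.log (2 * Real.cosh x)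

/-- parameters of the one vertex problem -/
structure Par where
  ap : ℝ
  am : ℝ
  a0 : ℝ
  gp : ℝ
  gm : ℝ
  g0 : ℝ
  k : ℝ

/-- dependence of `EE` on the three fields `m`, `s`, `η` at one vertex -/
noncomputable def Ph (p : Par) (m s η : ℝ) : ℝ :=
  ell (m + η + p.ap) + ell (m - η + p.am) - 2 * ell (m + p.a0) -
    ell (s + η + p.gp) - ell (s - η + p.gm) + 2 * ell (s + p.g0) + p.k

/-- hypotheses on the parameters (they are symmetric under `Par.flip`) -/
structure Par.Ok (p : Par) : Prop where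
  h1 : |p.a0| ≤ p.g0
  h2p : 0 ≤ (p.ap + p.am - 2 * p.a0) - (p.gp + p.gm - 2 * p.g0) + p.k
  h2m : 0 ≤ -(p.ap + p.am - 2 * p.a0) - (p.gp + p.gm - 2 * p.g0) + p.k
  h3 : |(p.ap - p.am) - (p.gp - p.gm)| ≤ 2 * ell p.g0 - 2 * ell p.a0 + p.k
  h4p : p.a0 < p.g0 ∨ ∀ s η : ℝ, 0 ≤ s → 0 ≤ Ph p s s η
  h4m : -p.a0 < p.g0 ∨ ∀ s η : ℝ, 0 ≤ s → 0 ≤ Ph p (-s) s η

/-- the parameters with `m` replaced by `-m` -/
def Par.flip (p : Par) : Par :=
  { ap := -p.am, am := -p.ap, a0 := -p.a0, gp := p.gp, gm := p.gm, g0 := p.g0, k := p.k }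

/-- the parameters of the one vertex problem: `B` = the remaining vertices, `K` = the couplings to
the removed vertex -/
noncomputable def par {V : Type} (B : Finset V) (J : V → V → ℝ) (K h M P : V → ℝ) : Par :=
  { ap := cc B J K (M + h)
    am := cc B J K (M - h)
    a0 := cc B J K M
    gp := cc B J K (P + h)
    gm := cc B J K (P - h)
    g0 := cc B J K P
    k := (kk B J K (M + h) + kk B J K (M - h) - 2 * kk B J K M) -
      (kk B J K (P + h) + kk B J K (P - h) - 2 * kk B J K P) }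

/-! ### Congruence: only the fields on `B` matter -/

theorem sp_sq {V : Type} (S : Finset V) (x : V) : sp S x * sp S x = 1 := by
  unfold sp; split_ifs <;> norm_num

theorem sp_eq_chi {V : Type} (S : Finset V) (x : V) : sp S x = chi {x} S := by
  unfold sp chi
  by_cases h : x ∈ S
  · rw [if_pos h, Finset.singleton_inter_of_mem h, Finset.card_singleton, pow_one]
  · rw [if_neg h, Finset.singleton_inter_of_notMem h, Finset.card_empty, pow_zero]

theorem ZZ_pos {V : Type} (B : Finset V) (J : V → V → ℝ) (Q : V → ℝ) : 0 < ZZ B J Q :=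
  Finset.sum_pos (fun _ _ => Real.exp_pos _) ⟨∅, Finset.empty_mem_powerset B⟩

theorem En_congr {V : Type} {B : Finset V} {J J' : V → V → ℝ} {Q Q' : V → ℝ}
    (hJ : ∀ x ∈ B, ∀ y ∈ B, J x y = J' x y) (h : ∀ x ∈ B, Q x = Q' x) (S : Finset V) :
    En B J Q S = En B J' Q' S := by
  unfold En
  congr 1
  · exact Finset.sum_congr rfl fun x hx => Finset.sum_congr rfl fun y hy => by rw [hJ x hx y hy]
  · exact Finset.sum_congr rfl fun x hx => by rw [h x hx]

theorem ZZ_congr {V : Type} {B : Finset V} {J J' : V → V → ℝ} {Q Q' : V → ℝ}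
    (hJ : ∀ x ∈ B, ∀ y ∈ B, J x y = J' x y) (h : ∀ x ∈ B, Q x = Q' x) :
    ZZ B J Q = ZZ B J' Q' := by
  unfold ZZ
  exact Finset.sum_congr rfl fun S _ => by rw [En_congr hJ h]

theorem LL_congr {V : Type} {B : Finset V} {J : V → V → ℝ} {Q Q' : V → ℝ}
    (h : ∀ x ∈ B, Q x = Q' x) : LL B J Q = LL B J Q' := by
  unfold LL
  rw [ZZ_congr (fun _ _ _ _ => rfl) h]

theorem EE_congr {V : Type} {B : Finset V} {J : V → V → ℝ} {h M P h' M' P' : V → ℝ}
    (hh : ∀ x ∈ B, h x = h' x) (hM : ∀ x ∈ B, M x = M' x) (hP : ∀ x ∈ B, P x = P' x) :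
    EE B J h M P = EE B J h' M' P' := by
  unfold EE
  rw [LL_congr (Q := M + h) (Q' := M' + h') (fun x hx => by simp [hh x hx, hM x hx]),
    LL_congr (Q := M - h) (Q' := M' - h') (fun x hx => by simp [hh x hx, hM x hx]),
    LL_congr (Q := M) (Q' := M') hM,
    LL_congr (Q := P + h) (Q' := P' + h') (fun x hx => by simp [hh x hx, hP x hx]),
    LL_congr (Q := P - h) (Q' := P' - h') (fun x hx => by simp [hh x hx, hP x hx]),
    LL_congr (Q := P) (Q' := P') hP]

theorem cc_congr {V : Type} {B : Finset V} {J : V → V → ℝ} {K Q Q' : V → ℝ}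
    (h : ∀ x ∈ B, Q x = Q' x) : cc B J K Q = cc B J K Q' := by
  unfold cc
  rw [LL_congr (Q := Q + K) (Q' := Q' + K) (fun x hx => by simp [h x hx]),
    LL_congr (Q := Q - K) (Q' := Q' - K) (fun x hx => by simp [h x hx])]

theorem kk_congr {V : Type} {B : Finset V} {J : V → V → ℝ} {K Q Q' : V → ℝ}
    (h : ∀ x ∈ B, Q x = Q' x) : kk B J K Q = kk B J K Q' := by
  unfold kk
  rw [LL_congr (Q := Q + K) (Q' := Q' + K) (fun x hx => by simp [h x hx]),
    LL_congr (Q := Q - K) (Q' := Q' - K) (fun x hx => by simp [h x hx])]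

theorem par_congr {V : Type} {B : Finset V} {J : V → V → ℝ} {K h M P h' M' P' : V → ℝ}
    (hh : ∀ x ∈ B, h x = h' x) (hM : ∀ x ∈ B, M x = M' x) (hP : ∀ x ∈ B, P x = P' x) :
    par B J K h M P = par B J K h' M' P' := by
  have e1 : ∀ x ∈ B, (M + h) x = (M' + h') x := fun x hx => by simp [hh x hx, hM x hx]
  have e2 : ∀ x ∈ B, (M - h) x = (M' - h') x := fun x hx => by simp [hh x hx, hM x hx]
  have e3 : ∀ x ∈ B, (P + h) x = (P' + h') x := fun x hx => by simp [hh x hx, hP x hx]
  have e4 : ∀ x ∈ B, (P - h) x = (P' - h') x := fun x hx => by simp [hh x hx, hP x hx]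
  unfold par
  rw [cc_congr e1, cc_congr e2, cc_congr hM, cc_congr e3, cc_congr e4, cc_congr hP,
    kk_congr e1, kk_congr e2, kk_congr hM, kk_congr e3, kk_congr e4, kk_congr hP]

end DS

end MP8622
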