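import Pool.Agent.Lib.MP_8622f1_pr.DS.Defs

set_option autoImplicit false

open Classical Filter Topology

/-!
# MP_8622f1_pr, the Ding-Song-Sun inequality: exact statements of the modules (helper52)

THEOREM (DSS). For a finite ferromagnet and ALL real fields `b`:
`0 ≤ Cov_b(σ_x, σ_y) ≤ ⟨σ_x σ_y⟩_0`.

Module `XXX`: file `Pool/Agent/Lib/MP_8622f1_pr/DS/XXX.lean`, `import ..DS.Spec`, namespace
`MP8622.DS`, `theorem specXXX (hYYY : SpecYYY) .. : SpecXXX`; every other Spec may be a hypothesis;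
own lemmas in the namespace `MP8622.DS.XXXM`. No double quotes. `Defs.lean` contains `ZZ_pos`,
`sp_sq`, `sp_eq_chi`, `LL_congr`, `EE_congr`, `cc_congr`, `kk_congr`, `par_congr` (only the fields
on `B` matter).

PLAN. `EE B J h M P ≥ 0` for `|M| ≤ P` (CLM, CLC), by induction on `B`: all fields at one vertex `u`
can be moved to `M u = P u = 0` without increasing a negative value (ONE); this is a calculus
problem in three real variables (CAL), whose limit values at infinity are nonnegative by the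
induction hypothesis (PRO). Then CVU, TRF.
-/

namespace MP8622

namespace DS

/-! ### Finite sums -/

/-- NAP: Griffiths' first inequality.
Proof: for `c ≥ 0` and `a = ±1`: `exp (c a) = cosh c + a sinh c`, `cosh c, sinh c ≥ 0`. So
`exp (En B J 0 S) = ∏_{x ∈ B} ∏_{y ∈ B} (cosh (J x y) + sinh (J x y) * (sp S x * sp S y))`. Call `F`
good if `0 ≤ ∑_{S ∈ B.powerset} (∏_{x ∈ B} sp S x ^ n x) * F S` for all `n : V → ℕ`. The constant `1`
is good: the sum is `∏_{x ∈ B} (1 + (-1) ^ n x)` (`Finset.prod_add`; `sp S x = -1` iff `x ∈ S`). If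
`F` is good, so is `F * (a + b * (sp x * sp y))` for `a, b ≥ 0`, `x, y ∈ B` (raise `n x` and `n y` by
one). Induction over the finite product. Finally `∏_{x ∈ A} sp = ∏_{x ∈ B} sp ^ (if x ∈ A then 1
else 0)`. -/
def SpecNAP : Prop :=
  ∀ (V : Type) (B A : Finset V) (J : V → V → ℝ), (∀ x y, 0 ≤ J x y) → A ⊆ B →
    0 ≤ ∑ S ∈ B.powerset, (∏ x ∈ A, sp S x) * Real.exp (En B J 0 S)

/-- MON: the partition function is monotone in the modulus of the fields (from NAP).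
Proof: `exp (Q x * sp S x) = cosh (Q x) + sp S x * sinh (Q x)`; expanding (`Finset.prod_add`):
`ZZ B J Q = ∑_{A ∈ B.powerset} (∑_S (∏_{x ∈ A} sp S x) exp (En B J 0 S)) *
((∏_{x ∈ A} sinh (Q x)) * ∏_{x ∈ B \ A} cosh (Q x))`. The first factors are `≥ 0` (NAP), and
`|∏ sinh (Q' x)| * ∏ cosh (Q' x) ≤ ∏ sinh (Q x) * ∏ cosh (Q x)` because `|sinh (Q' x)| =
sinh |Q' x| ≤ sinh (Q x)`, `cosh (Q' x) = cosh |Q' x| ≤ cosh (Q x)` (`Finset.prod_le_prod`). -/
def SpecMON : Prop :=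
  ∀ (V : Type) (B : Finset V) (J : V → V → ℝ) (Q Q' : V → ℝ), (∀ x y, 0 ≤ J x y) →
    (∀ x ∈ B, |Q' x| ≤ Q x) → ZZ B J Q' ≤ ZZ B J Q

/-- REC: removing the vertex `u`.
Proof: `B = insert u (B.erase u)`, `Finset.sum_powerset_insert`; for `S ⊆ B.erase u`:
`En B J Q S = J u u + Q u + En (B.erase u) J (Q + KK J u) S` and
`En B J Q (insert u S) = J u u - Q u + En (B.erase u) J (Q - KK J u) S`
(`sp (insert u S) x = sp S x` for `x ≠ u`, `sp (insert u S) u = -1`). -/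
def SpecREC : Prop :=
  ∀ (V : Type) (B : Finset V) (J : V → V → ℝ) (Q : V → ℝ) (u : V) (F : Finset V → ℝ), u ∈ B →
    Su B J Q F = Real.exp (J u u) *
      (Real.exp (Q u) * Su (B.erase u) J (Q + KK J u) F +
        Real.exp (-Q u) * Su (B.erase u) J (Q - KK J u) (fun S => F (insert u S)))

/-- LRC: the free energy as a function of the field at `u` (from REC with `F = 1`).
Proof: `e^q a + e^(-q) b = √(ab) (e^(q+c) + e^(-q-c))`, `c = (log a - log b) / 2`, for `a, b > 0`;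
here `a = ZZ (B.erase u) J (Q + KK J u)`, `b = ZZ (B.erase u) J (Q - KK J u)`; take logarithms. -/
def SpecLRC : Prop :=
  ∀ (V : Type) (B : Finset V) (J : V → V → ℝ) (Q : V → ℝ) (u : V), u ∈ B →
    LL B J Q = J u u + ell (Q u + cc (B.erase u) J (KK J u) Q) + kk (B.erase u) J (KK J u) Q

/-- DUP: two replicas (from REC with `F = 1`).
Proof: induction on `B`. For `u ∉ B` the powerset of `insert u B` consists of the `T` and the
`insert u T`, `T ⊆ B`. REC for `ZZ (insert u B) J Q` and `Q'`, product of two sums; with `K = KK J u`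
the four products are, by the induction hypothesis for `(Q ± K, Q' ± K)`, sums over `T`:
`e^(Q+Q') Z(Q+K) Z(Q'+K) + e^(-Q-Q') Z(Q-K) Z(Q'-K)` gives the sets `insert u T` (REC for
`ZZ (insert u T) (2J) (Q + Q')`, `KK (2J) u = 2 K`), the two mixed products give the sets `T` (REC for
`ZZ (insert u (B \ T)) (2J) (Q - Q')`); the constant is `exp (2 * J u u)` on both sides. -/
def SpecDUP : Prop :=
  ∀ (V : Type) (B : Finset V) (J : V → V → ℝ) (Q Q' : V → ℝ),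
    ZZ B J Q * ZZ B J Q' = ∑ T ∈ B.powerset,
      ZZ T (fun x y => 2 * J x y) (Q + Q') * ZZ (B \ T) (fun x y => 2 * J x y) (Q - Q')

/-- comparison inequalities for `|M| ≤ P` -/
structure Gkm {V : Type} (B : Finset V) (J : V → V → ℝ) (K M P : V → ℝ) : Prop where
  i : ZZ B J (P - K) * ZZ B J (M + K) ≤ ZZ B J (P + K) * ZZ B J (M - K)
  ii : ZZ B J (P - K) * ZZ B J (M - K) ≤ ZZ B J (P + K) * ZZ B J (M + K)
  si : (∃ v ∈ B, M v < P v ∧ 0 < K v) →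
    ZZ B J (P - K) * ZZ B J (M + K) < ZZ B J (P + K) * ZZ B J (M - K)
  sii : (∃ v ∈ B, -M v < P v ∧ 0 < K v) →
    ZZ B J (P - K) * ZZ B J (M - K) < ZZ B J (P + K) * ZZ B J (M + K)
  v : (ZZ B J (M + K) + ZZ B J (M - K)) * ZZ B J P ≤
    (ZZ B J (P + K) + ZZ B J (P - K)) * ZZ B J M

/-- GKM: (from DUP, MON).
Proof. (i): DUP: `Z(P+K) Z(M-K) - Z(P-K) Z(M+K) = ∑_T Z_T(2J; P+M) *
(Z_{B∖T}(2J; P-M+2K) - Z_{B∖T}(2J; P-M-2K))`, and `|P-M-2K| ≤ P-M+2K` (MON). (si): in addition the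
term `T = B \ {v}` is positive: `Z_{{v}}(2J; R) = exp (2 J v v) * 2 cosh (R v)` and
`|(P-M-2K) v| < (P-M+2K) v`. (ii), (sii): the same for `-M`: `ZZ B J (-Q) = ZZ B J Q` (the bijection
`S ↦ B \ S`), or directly: `Z(P+K) Z(M+K) - Z(P-K) Z(M-K) = ∑_T (Z_T(2J; P+M+2K) - Z_T(2J; P+M-2K)) *
Z_{B∖T}(2J; P-M)` (`T = {v}` for (sii)).
(v): DUP for the four products: the difference is
`∑_T (Z_T(P+M+K) - Z_T(P+M-K)) * (Z_{B∖T}(P-M+K) - Z_{B∖T}(P-M-K)) ≥ 0` (all with `2J`; MON). -/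
def SpecGKM : Prop :=
  ∀ (V : Type) (B : Finset V) (J : V → V → ℝ) (K M P : V → ℝ), (∀ x y, 0 ≤ J x y) →
    (∀ x ∈ B, 0 ≤ K x) → (∀ x ∈ B, |M x| ≤ P x) → Gkm B J K M P

/-! ### Calculus -/

/-- elementary facts on `ell = log (2 cosh)` -/
structure EllF : Prop where
  deriv : ∀ x, HasDerivAt ell (Real.tanh x) x
  deriv2 : ∀ x, HasDerivAt Real.tanh (1 - Real.tanh x ^ 2) x
  tmono : StrictMono Real.tanh
  even : ∀ x, ell (-x) = ell x
  exp_ell : ∀ x, Real.exp (ell x) = 2 * Real.cosh x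
  ge_abs : ∀ x, |x| ≤ ell x
  le_abs : ∀ x, ell x ≤ |x| + Real.exp (-2 * |x|)
  lip : ∀ x y, |ell x - ell y| ≤ |x - y|
  /-- `s ↦ ell (s + b) - ell (s + a)` is nondecreasing for `a ≤ b` -/
  mono : ∀ a b s s', a ≤ b → s ≤ s' →
    ell (s + b) - ell (s + a) ≤ ell (s' + b) - ell (s' + a)
  /-- `|m| ≤ s`, `|a| ≤ b` -/
  dom : ∀ a b m s, |a| ≤ b → |m| ≤ s → ell (m + a) - ell a ≤ ell (s + b) - ell b

/-- ELF. Proofs: `exp (ell x) = e^x + e^(-x)`; `le_abs`: `log (1 + y) ≤ y` for `y = e^(-2|x|)`; `lip`,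
`mono`: derivatives (or `cosh (x + r) ≤ e^|r| cosh x`; `mono`: `cosh (s+b) cosh (s'+a) ≤
cosh (s'+b) cosh (s+a)` by the product formula `2 cosh u cosh v = cosh (u+v) + cosh (u-v)`);
`dom`: by evenness `m ≥ 0` or replace `(m, a)` by `(-m, -a)`; `ell (m + a) - ell a ≤ ell (m + |a|) -
ell |a| ≤ ell (m + b) - ell b` (`mono`) `≤ ell (s + b) - ell b`. -/
def SpecELF : Prop := EllF

/-- QCV: `m ↦ ell (m+p) + ell (m+q) - 2 ell (m+r)` is quasi-concave.
Proof: with `z = e^(2m)`, `exp` of it is `R z = (a z² + 2 c z + a⁻¹) / (b z² + 2 z + b⁻¹)`,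
`a = e^(p+q)`, `c = cosh (p-q) ≥ 1`, `b = e^(2r)` (`4 cosh (m+p) cosh (m+q) = 2 cosh (2m+p+q) +
2 cosh (p-q)`, `4 cosh² (m+r) = 2 cosh (2m+2r) + 2`). Let `z₁ ≤ z ≤ z₂`, `λ = min (R z₁) (R z₂) > 0`,
`A = a - λb`, `C = a⁻¹ - λb⁻¹`, `D = c - λ`, `q z = A z² + 2 D z + C`; `q z₁, q z₂ ≥ 0`, claim
`q z ≥ 0`. If `A ≤ 0`: `q` is concave. If `A > 0` and `C > 0`: `λ < a/b`, `λ < b/a`, so `λ < 1 ≤ c`,
all coefficients are positive. If `A > 0`, `C ≤ 0`: `q z / z = A z + 2 D + C / z` is nondecreasing. -/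
def SpecQCV : Prop :=
  ∀ p q r s m : ℝ, |m| ≤ s →
    ell (s + p) + ell (s + q) - 2 * ell (s + r) ≤ ell (m + p) + ell (m + q) - 2 * ell (m + r) ∨
    ell (-s + p) + ell (-s + q) - 2 * ell (-s + r) ≤
      ell (m + p) + ell (m + q) - 2 * ell (m + r)

/-- CMO: the monotone cases (from ELF).
Proof: `Ph p s s η = g (s+η) + g' (s-η) + 2 (ell (s+g0) - ell (s+a0)) + k`,
`g x = ell (x+ap) - ell (x+gp)`, `g' x = ell (x+am) - ell (x+gm)`; the third term is nondecreasing in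
`s` (`EllF.mono`). `g` is nondecreasing if `gp ≤ ap`, nonincreasing if `ap ≤ gp`, the same for `g'`.
If `gp ≤ ap`, `gm ≤ am`: `η' = η`. If `gp ≤ ap`, `am ≤ gm`: `η' = η - s` (`η - s ≤ s + η`,
`-(η-s) = s - η`). If `ap ≤ gp`, `gm ≤ am`: `η' = η + s`. -/
def SpecCMO : Prop :=
  ∀ p : Par, p.a0 ≤ p.g0 → ¬ (p.ap < p.gp ∧ p.am < p.gm) → ∀ s η : ℝ, 0 ≤ s →
    ∃ η' : ℝ, Ph p 0 0 η' ≤ Ph p s s η

/-- CMI: existence of the minimum (from ELF).
Proof: put `f s η = Ph p s s η`. (1) `f s η ≥ -2 e^(-2(s+a0))` if `s + a0 ≥ 0`: `ell (s+η+ap) -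
ell (s+η+gp) ≥ ap - gp` (`lip`), the same for `am`, `2 ell (s+g0) ≥ 2 (s+g0)`,
`2 ell (s+a0) ≤ 2 (s+a0) + 2 e^(-2(s+a0))`, and `h2p`. (2) For `0 ≤ s ≤ R` and `η ≥ R + gm`,
`η ≥ R + am`: with `x = s - η`: `ell (x+am) ≥ -x-am`, `ell (x+gm) ≤ -x-gm+e^(2(x+gm))`, so
`ell (x+am) - ell (x+gm) ≥ gm - am - e^(2(x+gm))`; hence
`f s η ≥ (ap - gp) + (gm - am) + 2 (ell (s+g0) - ell (s+a0)) + k - e^(2(R-η+gm)) ≥ -e^(2(R-η+gm))` by `h3`
and `ell (s+g0) - ell (s+a0) ≥ ell g0 - ell a0`. (3) The same for `η → -∞`. So there are `R`, `H`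
such that `f s η > E0` if `s ≥ R` or `|η| ≥ H`. `f` is continuous; take the minimum over the compact
set `0 ≤ s ≤ R`, `|η| ≤ H` (`IsCompact.exists_isMinOn`, `isCompact_Icc.prod`). -/
def SpecCMI : Prop :=
  ∀ p : Par, p.Ok → p.ap < p.gp → p.am < p.gm → ∀ E0 : ℝ, E0 < 0 →
    (∃ s η : ℝ, 0 ≤ s ∧ Ph p s s η ≤ E0) →
    ∃ s' η' : ℝ, 0 ≤ s' ∧ ∀ s η : ℝ, 0 ≤ s → Ph p s' s' η' ≤ Ph p s s η

/-- SOC: necessary condition of second order.
Proof: `f1 x / (x - x0) → c < 0`; so `f1 < 0` on `(x0, x0 + δ')` and `f1 > 0` on `(x0 - δ', x0)`; mean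
value theorem (`strictAntiOn_of_deriv_neg` or `exists_hasDerivAt_eq_slope`). -/
def SpecSOC : Prop :=
  ∀ (f f1 : ℝ → ℝ) (x0 c : ℝ), (∀ x, HasDerivAt f (f1 x) x) → f1 x0 = 0 → HasDerivAt f1 c x0 →
    c < 0 → ∀ δ : ℝ, 0 < δ → (∃ x, x0 < x ∧ x < x0 + δ ∧ f x < f x0) ∧
      ∃ x, x0 - δ < x ∧ x < x0 ∧ f x < f x0

/-- CCR: the critical point (from ELF, SOC).
Proof. Write `a₊ = tanh (s'+η'+ap)`, `a₋ = tanh (s'-η'+am)`, `a = tanh (s'+a0)`, `b₊, b₋, b` the same with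
`gp, gm, g0`; `a < b`. (1) `η ↦ Ph p s' s' η` has a minimum at `η'`: `a₊ - a₋ = b₊ - b₋`. (2)
`s ↦ Ph p s s η'` has a local minimum at `s' > 0`: `(a₊ + a₋ - 2a) - (b₊ + b₋ - 2b) = 0`. (3)
`s ↦ Ph p s' s η'` has a minimum over `s ≥ s'` at `s'`: its derivative `2t := 2b - b₊ - b₋` is `≥ 0`.
(4) second derivative of the function in (2): `c = -(a₊²+a₋²-2a²) + (b₊²+b₋²-2b²)`
(`(1 - x²)` is the derivative of `tanh`). With `a₊+a₋ = 2(a-t)`, `b₊+b₋ = 2(b-t)`,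
`a₊-a₋ = b₊-b₋ = 2q`: `c = 2((b-t)²-b²-(a-t)²+a²) = 4t(a-b)`. By SOC not `c < 0`, so `t ≤ 0`, `t = 0`.
(5) `m ↦ Ph p m s' η'` on `[-s', s']` has a minimum at `m = s'`; its derivative there is `-2t = 0` and
the second derivative is `-(a₊²+a₋²-2a²) = -2q²`; by SOC (points `m < s'` near `s'`) `q = 0`. (6) So
`a₊ = a₋ = a`, `b₊ = b₋ = b`, by injectivity of `tanh`: `η'+ap = -η'+am = a0`, `η'+gp = -η'+gm = g0`,
and `Ph p m s η' = k` for all `m`, `s`. -/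
def SpecCCR : Prop :=
  ∀ p : Par, p.a0 < p.g0 → ∀ s' η' : ℝ, 0 < s' →
    (∀ m s η : ℝ, |m| ≤ s → Ph p s' s' η' ≤ Ph p m s η) → Ph p 0 0 η' = Ph p s' s' η'

/-- CAL: the one vertex problem (from ELF, QCV, CMO, CMI, CCR).
Proof. `Ph p (-m) s η = Ph p.flip m s η` (evenness of `ell`), `p.flip` is `Ok` if `p` is,
`Ph p 0 0 η = Ph p.flip 0 0 η`. Let `E0 = Ph p m s η < 0` and suppose that `E0 < Ph p 0 0 η'` for all
`η'`. By QCV (for fixed `s`, `η`) `Ph p s s η ≤ E0` or `Ph p.flip s s η ≤ E0`. For each of the two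
parameter sets `p' ∈ {p, p.flip}` for which `Ph p' s s η ≤ E0` for some `s ≥ 0`, `η`: by CMO
`ap < gp` and `am < gm`, and CMI gives a minimum point. Choose the parameter set (one of at most two)
and its minimum point `(s', η')` with the smallest value `μ ≤ E0`; then `μ ≤ Ph p' s s η` for both
`p'` and all `s ≥ 0`, `η`, so by QCV `μ ≤ Ph p' m s η` for both `p'`, all `|m| ≤ s`. `s' > 0` since
`s' = 0` contradicts the assumption. `h4p` of the chosen set: its second alternative contradicts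
`μ < 0`, so `a0 < g0`; CCR: `Ph p' 0 0 η' = μ ≤ E0`, contradiction. -/
def SpecCAL : Prop :=
  ∀ p : Par, p.Ok → ∀ m s η : ℝ, |m| ≤ s → Ph p m s η < 0 → ∃ η' : ℝ, Ph p 0 0 η' ≤ Ph p m s η

/-! ### The induction -/

/-- PRA: `EE` as a function of the fields at `u` (from LRC); unfold `EE`, `Ph`, `par`. -/
def SpecPRA : Prop :=
  ∀ (V : Type) (B : Finset V) (J : V → V → ℝ) (h M P : V → ℝ) (u : V), u ∈ B →
    EE B J h M P = Ph (par (B.erase u) J (KK J u) h M P) (M u) (P u) (h u)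

/-- PRO: the parameters are admissible (from PRA, LRC, GKM). Let `B' = B.erase u`, `K = KK J u`,
`hI` = the induction hypothesis.
`h1`: `cc K M ≤ cc K P` is (i) of `Gkm B' J K M P` after taking logarithms, `-cc K M ≤ cc K P` is (ii).
`h2p`: `cc Q + kk Q = LL (Q + K)`, so the expression is `EE B' J h (M + K) (P + K) ≥ 0`
(`|M + K| ≤ P + K`; write `M + h + K = (M + K) + h`). `h2m`: `-cc Q + kk Q = LL (Q - K)` for the
`M`-terms: `EE B' J h (M - K) (P + K) ≥ 0`.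
`h3`: let `M⁰`, `P⁰` be `M`, `P` with the value `0` at `u`; LRC: `LL B J M⁰ = J u u + ell (cc M) + kk M`.
`(ap - am) - (gp - gm) + 2 ell g0 - 2 ell a0 + k = EE B' J (h + K) M P +
2 ((LL B J P⁰ - LL B' J P) - (LL B J M⁰ - LL B' J M))`, `≥ 0` by `hI` and (v)
(`ZZ B J M⁰ = exp (J u u) (ZZ B' (M+K) + ZZ B' (M-K))`, or: `exp (ell (cc Q) + kk Q) =
ZZ (Q+K) + ZZ (Q-K)`); the other inequality in the same way with `h - K`.
`h4p`: if `M v < P v` for some `v ∈ B'`: (si) gives `cc M < cc P`. Otherwise `M = P` on `B'`; then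
`Ph (par ..) s s η = EE B J h' M' P'` with the values `η, s, s` at `u` (PRA, `par_congr`,
`Function.update`), and `M' = P'` on `B`, so it is `0`. `h4m`: if `-M v < P v` for some `v ∈ B'`: (sii).
Otherwise `M = -P` on `B'`, and `EE B J h' M' P' = 0` for `M' = -P'` on `B`, because
`LL B J (-Q) = LL B J Q` (bijection `S ↦ B \ S` of `B.powerset`). -/
def SpecPRO : Prop :=
  ∀ (V : Type) (B : Finset V) (J : V → V → ℝ) (h M P : V → ℝ) (u : V), u ∈ B →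
    (∀ x y, 0 ≤ J x y) → (∀ v ∈ B.erase u, 0 < KK J u v) → (∀ x ∈ B.erase u, |M x| ≤ P x) →
    (∀ h M P : V → ℝ, (∀ x ∈ B.erase u, |M x| ≤ P x) → 0 ≤ EE (B.erase u) J h M P) →
    (par (B.erase u) J (KK J u) h M P).Ok

/-- ONE: the fields at one vertex (from PRA, PRO, CAL). -/
def SpecONE : Prop :=
  ∀ (V : Type) (B : Finset V) (J : V → V → ℝ) (h M P : V → ℝ) (u : V), u ∈ B →
    (∀ x y, 0 ≤ J x y) → (∀ v ∈ B.erase u, 0 < KK J u v) → (∀ x ∈ B, |M x| ≤ P x) →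
    (∀ h M P : V → ℝ, (∀ x ∈ B.erase u, |M x| ≤ P x) → 0 ≤ EE (B.erase u) J h M P) →
    EE B J h M P < 0 → ∃ η : ℝ, EE B J (Function.update h u η) (Function.update M u 0)
      (Function.update P u 0) ≤ EE B J h M P

/-- CLM: the case of positive couplings (from ONE).
Proof: induction on `B.card`. Suppose `EE B J h M P < 0`. For every `U ⊆ B` there are `h', M', P'`,
`M' = P' = 0` on `U`, `M' = M`, `P' = P` off `U`, with `EE B J h' M' P' ≤ EE B J h M P` (induction on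
`U`, ONE; the induction hypothesis on the cardinality is used for `B.erase u`). For `U = B`:
`EE B J h' M' P' = 0` (`EE_congr` with `M' = P' = 0`), contradiction. -/
def SpecCLM : Prop :=
  ∀ (V : Type) (B : Finset V) (J : V → V → ℝ), (∀ x y, 0 ≤ J x y) →
    (∀ x ∈ B, ∀ y ∈ B, x ≠ y → 0 < KK J x y) →
    ∀ h M P : V → ℝ, (∀ x ∈ B, |M x| ≤ P x) → 0 ≤ EE B J h M P

/-- CLC: all `J ≥ 0` (from CLM). Proof: `J + 1/n` and continuity (`ZZ` is a finite sum of continuous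
functions of `J`, positive). -/
def SpecCLC : Prop :=
  ∀ (V : Type) (B : Finset V) (J : V → V → ℝ), (∀ x y, 0 ≤ J x y) →
    ∀ h M P : V → ℝ, (∀ x ∈ B, |M x| ≤ P x) → 0 ≤ EE B J h M P

/-- CVU: the Ding-Song-Sun inequality (from CLC, REC).
Proof: `B' = B \ {x, y}`, `P = KK J x + KK J y`, `M = KK J x - KK J y` (on `B'`; `|M| ≤ P`), `κ = KK J x y`.
REC at `x`, then at `y`: for signs `a, b` the sum over the `S` with `sp S x = a`, `sp S y = b` is
`w_ab = C exp (a Q x + b Q y + a b κ) ZZ B' J (Q + a KK J x + b KK J y)`, `C = exp (J x x + J y y)`.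
So `w₊₊ w₋₋ = C² e^(2κ) Z(Q+P) Z(Q-P) =: A`, `w₊₋ w₋₊ = C² e^(-2κ) Z(Q+M) Z(Q-M) =: D`, and
`Cov = 4 (w₊₊ w₋₋ - w₊₋ w₋₊) / (∑ w)²`. If `A ≤ D` then `Cov ≤ 0 ≤ ⟨..⟩_0`. Otherwise
`∑ w ≥ 2 √A + 2 √D`, `Cov ≤ (A - D) / (√A + √D)² = (√A - √D) / (√A + √D)`. For `Q = 0`:
`A_0 = (C e^κ Z(P))²`, `D_0 = (C e^(-κ) Z(M))²` (`Z(-P) = Z(P)`) and
`⟨sp x sp y⟩_0 = (√A_0 - √D_0) / (√A_0 + √D_0)` (it is `≥ 0` by MON, or since `A_0 ≥ D_0`, which
follows from `A > D`). Finally `A D_0 ≤ A_0 D`: this is `0 ≤ EE B' J Q M P` after taking exponentials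
(`LL (M - Q) = LL (Q - M)`), and `(a - d)/(a + d)` is increasing in `a / d`. -/
def SpecCVU : Prop :=
  ∀ (V : Type) (B : Finset V) (J : V → V → ℝ), (∀ x y, 0 ≤ J x y) →
    ∀ (Q : V → ℝ) (x y : V), x ∈ B → y ∈ B → x ≠ y →
      ex B J Q (fun S => sp S x * sp S y) - ex B J Q (fun S => sp S x) * ex B J Q (fun S => sp S y) ≤
        ex B J 0 (fun S => sp S x * sp S y)

/-! ### Transfer to the library -/

/-- TRF: the final form, upper bound (from CVU).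
Proof: put `J x y = if s(x, y) ∈ E ∧ x ≠ y then -log (1 - P s(x, y)) / 4 else 0` (`≥ 0`, symmetric).
For `S ⊆ Λ`: `exp (En Λ J b S) = C * wf P E Λ b S`, `C = ∏_{e ∈ E, not diagonal} exp (J_e)`,
`J_e = -log (1 - P e) / 2`: for `e = s(x, y)`, `x ≠ y`, `exp (J_e σ_x σ_y) = exp J_e * (if Mono S e then 1
else 1 - P e)`; every edge occurs for two ordered pairs; diagonal edges have factor `1`.
`sp S x = chi {x} S` (`sp_eq_chi`), `chi {x} S * chi {y} S = chi (symmDiff {x} {y}) S`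
(`chi_symmDiff_left`). -/
def SpecTRF : Prop :=
  ∀ (V : Type) (P : Sym2 V → ℝ) (E : Finset (Sym2 V)) (Λ : Finset V) (b : V → ℝ) (x y : V),
    (∀ e, 0 ≤ P e) → (∀ e, P e < 1) → (∀ e ∈ E, ∀ z ∈ e, z ∈ Λ) → x ∈ Λ → y ∈ Λ → x ≠ y →
      cvf P E Λ b x y ≤ NU.c2 P E Λ x y

/-- FKC: the final form, lower bound (FKG inequality with real fields).
Proof: as `fkg_anti` in `Fkg.lean` (four functions theorem, `Finset.four_functions_theorem`) with the
weight `wf P E Λ b`: `wf S * wf T ≤ wf (S ∩ T) * wf (S ∪ T)` for `S, T ⊆ Λ` by `sw_mul_le` and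
`chi {v} S + chi {v} T = chi {v} (S ∩ T) + chi {v} (S ∪ T)`; the functions `1 + chi {x}` and
`1 + chi {y}` are nonnegative and decreasing; expand. -/
def SpecFKC : Prop :=
  ∀ (V : Type) (P : Sym2 V → ℝ) (E : Finset (Sym2 V)) (Λ : Finset V) (b : V → ℝ) (x y : V),
    (∀ e, 0 ≤ P e) → (∀ e, P e ≤ 1) → x ∈ Λ → y ∈ Λ → 0 ≤ cvf P E Λ b x y

end DS

end MP8622
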