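import Pool.Agent.Lib.MP_8622f1_pr.DS.Spec
import Pool.Agent.Lib.MP_8622f1_pr.Mtpc

section
set_option autoImplicit false

open Classical Filter Topology

/-!
# MP_8622f1_pr, DS: CAL (the one vertex problem), helper52
-/

namespace MP8622

namespace DS

namespace CALM

theorem flip_eq (hE : SpecELF) (p : Par) (m s η : ℝ) : Ph p (-m) s η = Ph p.flip m s η := by
  have e1 : ell (-m + η + p.ap) = ell (m - η + -p.ap) := by
    rw [← hE.even (-m + η + p.ap)]; congr 1; ring
  have e2 : ell (-m - η + p.am) = ell (m + η + -p.am) := by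
    rw [← hE.even (-m - η + p.am)]; congr 1; ring
  have e3 : ell (-m + p.a0) = ell (m + -p.a0) := by
    rw [← hE.even (-m + p.a0)]; congr 1; ring
  unfold Ph Par.flip
  simp only []
  rw [e1, e2, e3]
  ring

theorem flip_ok (hE : SpecELF) {p : Par} (h : p.Ok) : p.flip.Ok where
  h1 := by
    change |-p.a0| ≤ p.g0
    rw [abs_neg]; exact h.h1
  h2p := by
    change 0 ≤ (-p.am + -p.ap - 2 * -p.a0) - (p.gp + p.gm - 2 * p.g0) + p.k
    have := h.h2m
    linarith
  h2m := by
    change 0 ≤ -(-p.am + -p.ap - 2 * -p.a0) - (p.gp + p.gm - 2 * p.g0) + p.k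
    have := h.h2p
    linarith
  h3 := by
    change |(-p.am - -p.ap) - (p.gp - p.gm)| ≤ 2 * ell p.g0 - 2 * ell (-p.a0) + p.k
    rw [hE.even]
    have e : (-p.am - -p.ap) - (p.gp - p.gm) = (p.ap - p.am) - (p.gp - p.gm) := by ring
    rw [e]
    exact h.h3
  h4p := by
    rcases h.h4m with h' | h'
    · exact Or.inl h'
    · refine Or.inr fun s η hs => ?_
      rw [← flip_eq hE]
      exact h' s η hs
  h4m := by
    rcases h.h4p with h' | h'
    · refine Or.inl ?_
      change - -p.a0 < p.g0
      rw [neg_neg]; exact h'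
    · refine Or.inr fun s η hs => ?_
      rw [← flip_eq hE, neg_neg]
      exact h' s η hs

theorem quasi (hQ : SpecQCV) (p : Par) (m s η : ℝ) (h : |m| ≤ s) :
    Ph p s s η ≤ Ph p m s η ∨ Ph p (-s) s η ≤ Ph p m s η := by
  have := hQ (η + p.ap) (-η + p.am) p.a0 s m h
  unfold Ph
  have e1 : ∀ x : ℝ, x + η + p.ap = x + (η + p.ap) := fun x => by ring
  have e2 : ∀ x : ℝ, x - η + p.am = x + (-η + p.am) := fun x => by ring
  rw [e1 s, e2 s, e1 m, e2 m, e1 (-s), e2 (-s)]
  rcases this with h' | h'
  · left; linarith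
  · right; linarith

theorem minStep (hM : SpecCMO) (hI : SpecCMI) {p : Par} (hp : p.Ok) {E0 : ℝ} (hE0 : E0 < 0)
    (hne : ∀ η, E0 < Ph p 0 0 η) (hD : ∃ s η : ℝ, 0 ≤ s ∧ Ph p s s η ≤ E0) :
    ∃ s' η' : ℝ, 0 ≤ s' ∧ ∀ s η : ℝ, 0 ≤ s → Ph p s' s' η' ≤ Ph p s s η := by
  have hlt : p.ap < p.gp ∧ p.am < p.gm := by
    by_contra hcon
    obtain ⟨s, η, hs, h⟩ := hD
    obtain ⟨η', h'⟩ := hM p ((le_abs_self _).trans hp.h1) hcon s η hs
    exact absurd (h'.trans h) (not_le.2 (hne η'))
  exact hI p hp hlt.1 hlt.2 E0 hE0 hD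

theorem final (hQ : SpecQCV) (hC : SpecCCR) {p : Par} (hp : p.Ok) {E0 s' η' : ℝ}
    (hE0 : E0 < 0) (hs' : 0 ≤ s') (hne : ∀ η, E0 < Ph p 0 0 η) (hμ : Ph p s' s' η' ≤ E0)
    (h1 : ∀ s η : ℝ, 0 ≤ s → Ph p s' s' η' ≤ Ph p s s η)
    (h2 : ∀ s η : ℝ, 0 ≤ s → Ph p s' s' η' ≤ Ph p (-s) s η) : False := by
  have hall : ∀ m s η : ℝ, |m| ≤ s → Ph p s' s' η' ≤ Ph p m s η := by
    intro m s η hms
    have hs : 0 ≤ s := (abs_nonneg m).trans hms
    rcases quasi hQ p m s η hms with h | h
    · exact (h1 s η hs).trans h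
    · exact (h2 s η hs).trans h
  have hpos : 0 < s' := by
    rcases hs'.lt_or_eq with h | h
    · exact h
    · rw [← h] at hμ
      exact absurd hμ (not_le.2 (hne η'))
  have hlt : p.a0 < p.g0 := by
    rcases hp.h4p with h | h
    · exact h
    · exact absurd (h s' η' hs') (not_le.2 (hμ.trans_lt hE0))
  have := hC p hlt s' η' hpos hall
  have h3 := hne η'
  rw [this] at h3
  exact absurd hμ (not_le.2 h3)

end CALM

open CALM in
theorem specCAL (hE : SpecELF) (hQ : SpecQCV) (hM : SpecCMO) (hI : SpecCMI) (hC : SpecCCR) :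
    SpecCAL := by
  intro p hp m s η hms hneg
  by_contra hcon
  push Not at hcon
  have hf := flip_ok hE hp
  have hs : 0 ≤ s := (abs_nonneg m).trans hms
  set E0 := Ph p m s η with hE0
  have hne : ∀ η', E0 < Ph p 0 0 η' := hcon
  have hnef : ∀ η', E0 < Ph p.flip 0 0 η' := fun η' => by
    rw [← flip_eq hE, neg_zero]; exact hne η'
  have hflip : ∀ s η : ℝ, Ph p.flip (-s) s η = Ph p s s η := fun s η => by
    rw [← flip_eq hE, neg_neg]
  have hflip' : ∀ s η : ℝ, Ph p (-s) s η = Ph p.flip s s η := fun s η => flip_eq hE p s s η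
  -- one of the two parameter sets reaches `E0`
  have hor : (∃ s η : ℝ, 0 ≤ s ∧ Ph p s s η ≤ E0) ∨ (∃ s η : ℝ, 0 ≤ s ∧ Ph p.flip s s η ≤ E0) := by
    rcases quasi hQ p m s η hms with h | h
    · exact Or.inl ⟨s, η, hs, h⟩
    · exact Or.inr ⟨s, η, hs, by rw [← hflip']; exact h⟩
  by_cases hA : ∃ s η : ℝ, 0 ≤ s ∧ Ph p s s η ≤ E0
  · obtain ⟨s1, η1, hs1, hm1⟩ := minStep hM hI hp hneg hne hA
    have hv1 : Ph p s1 s1 η1 ≤ E0 := by
      obtain ⟨s, η, hs, h⟩ := hA
      exact (hm1 s η hs).trans h
    by_cases hB : ∃ s η : ℝ, 0 ≤ s ∧ Ph p.flip s s η ≤ E0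
    · obtain ⟨s2, η2, hs2, hm2⟩ := minStep hM hI hf hneg hnef hB
      have hv2 : Ph p.flip s2 s2 η2 ≤ E0 := by
        obtain ⟨s, η, hs, h⟩ := hB
        exact (hm2 s η hs).trans h
      rcases le_total (Ph p s1 s1 η1) (Ph p.flip s2 s2 η2) with hle | hle
      · refine final hQ hC hp hneg hs1 hne hv1 hm1 fun s η hs => ?_
        rw [hflip']
        exact hle.trans (hm2 s η hs)
      · refine final hQ hC hf hneg hs2 hnef hv2 hm2 fun s η hs => ?_
        rw [hflip]
        exact hle.trans (hm1 s η hs)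
    · push Not at hB
      refine final hQ hC hp hneg hs1 hne hv1 hm1 fun s η hs => ?_
      rw [hflip']
      exact hv1.trans (hB s η hs).le
  · have hB := hor.resolve_left hA
    push Not at hA
    obtain ⟨s2, η2, hs2, hm2⟩ := minStep hM hI hf hneg hnef hB
    have hv2 : Ph p.flip s2 s2 η2 ≤ E0 := by
      obtain ⟨s, η, hs, h⟩ := hB
      exact (hm2 s η hs).trans h
    refine final hQ hC hf hneg hs2 hnef hv2 hm2 fun s η hs => ?_
    rw [hflip]
    exact hv2.trans (hA s η hs).le

end DS

end MP8622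
end

section
set_option autoImplicit false

open Classical Filter Topology

/-!
# CCR: the critical point
-/

namespace MP8622

namespace DS

namespace CCRM

/-- one-sided minimum -/
theorem right_min {f : ℝ → ℝ} {d x0 : ℝ} (h : HasDerivAt f d x0) (hm : ∀ x, x0 < x → f x0 ≤ f x) :
    0 ≤ d := by
  have h1 := (hasDerivAt_iff_tendsto_slope.1 h).mono_left
    (nhdsWithin_mono x0 (s := Set.Ioi x0) (t := {x0}ᶜ) fun x hx => ne_of_gt hx)
  refine ge_of_tendsto h1 ?_
  filter_upwards [self_mem_nhdsWithin] with x hx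
  rw [slope_def_field]
  exact div_nonneg (sub_nonneg.2 (hm x hx)) (sub_nonneg.2 (le_of_lt hx))

theorem Ph_const (p : Par) (m s η : ℝ) (h1 : η + p.ap = p.a0) (h2 : -η + p.am = p.a0)
    (h3 : η + p.gp = p.g0) (h4 : -η + p.gm = p.g0) : Ph p m s η = p.k := by
  unfold Ph
  rw [show m + η + p.ap = m + p.a0 by linarith, show m - η + p.am = m + p.a0 by linarith,
    show s + η + p.gp = s + p.g0 by linarith, show s - η + p.gm = s + p.g0 by linarith]
  ring

theorem alg {a b t q ap am bp bm : ℝ} (h1 : ap + am = 2 * (a - t)) (h2 : bp + bm = 2 * (b - t))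
    (h3 : ap - am = 2 * q) (h4 : bp - bm = 2 * q) :
    -(ap ^ 2 + am ^ 2 - 2 * a ^ 2) + (bp ^ 2 + bm ^ 2 - 2 * b ^ 2) = 4 * t * (a - b) := by
  have e1 : ap = a - t + q := by linarith
  have e2 : am = a - t - q := by linarith
  have e3 : bp = b - t + q := by linarith
  have e4 : bm = b - t - q := by linarith
  rw [e1, e2, e3, e4]
  ring

end CCRM

/-- CCR -/
theorem specCCR (hELF : SpecELF) (hSOC : SpecSOC) : SpecCCR := by
  intro p hag s' η' hs' hmin
  have hd := hELF.deriv
  have hd2 := hELF.deriv2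
  set ap := Real.tanh (s' + η' + p.ap) with hap
  set am := Real.tanh (s' - η' + p.am) with ham
  set a := Real.tanh (s' + p.a0) with ha
  set bp := Real.tanh (s' + η' + p.gp) with hbp
  set bm := Real.tanh (s' - η' + p.gm) with hbm
  set b := Real.tanh (s' + p.g0) with hb
  have hab : a < b := hELF.tmono (by linarith)
  -- (1)
  have e1 : ap - am - bp + bm = 0 := by
    have h : HasDerivAt (fun η => Ph p s' s' η) (ap - am - bp + bm) η' := by
      have t1 : HasDerivAt (fun η : ℝ => ell (s' + η + p.ap)) ap η' := by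
        have := HasDerivAt.comp (h₂ := ell) (h := fun η : ℝ => s' + η + p.ap) η'
          (hd (s' + η' + p.ap)) (((hasDerivAt_id η').const_add s').add_const p.ap)
        exact this.congr_deriv (by rw [mul_one])
      have t2 : HasDerivAt (fun η : ℝ => ell (s' - η + p.am)) (-am) η' := by
        have := HasDerivAt.comp (h₂ := ell) (h := fun η : ℝ => s' - η + p.am) η'
          (hd (s' - η' + p.am)) (((hasDerivAt_id η').const_sub s').add_const p.am)
        exact this.congr_deriv (by rw [mul_neg, mul_one])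
      have t3 : HasDerivAt (fun η : ℝ => ell (s' + η + p.gp)) bp η' := by
        have := HasDerivAt.comp (h₂ := ell) (h := fun η : ℝ => s' + η + p.gp) η'
          (hd (s' + η' + p.gp)) (((hasDerivAt_id η').const_add s').add_const p.gp)
        exact this.congr_deriv (by rw [mul_one])
      have t4 : HasDerivAt (fun η : ℝ => ell (s' - η + p.gm)) (-bm) η' := by
        have := HasDerivAt.comp (h₂ := ell) (h := fun η : ℝ => s' - η + p.gm) η'
          (hd (s' - η' + p.gm)) (((hasDerivAt_id η').const_sub s').add_const p.gm)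
        exact this.congr_deriv (by rw [mul_neg, mul_one])
      have := ((((((t1.add t2).sub_const (2 * ell (s' + p.a0))).sub t3).sub t4).add_const
        (2 * ell (s' + p.g0))).add_const p.k)
      refine this.congr_deriv ?_
      ring
    have hm : IsLocalMin (fun η => Ph p s' s' η) η' :=
      Eventually.of_forall fun η => hmin s' s' η (by rw [abs_of_pos hs'])
    exact hm.hasDerivAt_eq_zero h
  -- (2)
  set f : ℝ → ℝ := fun s => Ph p s s η' with hf
  set f1 : ℝ → ℝ := fun s => Real.tanh (s + η' + p.ap) + Real.tanh (s - η' + p.am) -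
    2 * Real.tanh (s + p.a0) - Real.tanh (s + η' + p.gp) - Real.tanh (s - η' + p.gm) +
    2 * Real.tanh (s + p.g0) with hf1
  have hff : ∀ x, HasDerivAt f (f1 x) x := by
    intro x
    have t : ∀ c : ℝ, HasDerivAt (fun s : ℝ => ell (s + c)) (Real.tanh (x + c)) x := fun c =>
      (hd (x + c)).comp_add_const x c
    have t1 : HasDerivAt (fun s : ℝ => ell (s + η' + p.ap)) (Real.tanh (x + η' + p.ap)) x := by
      simpa only [add_assoc] using t (η' + p.ap)
    have t2 : HasDerivAt (fun s : ℝ => ell (s - η' + p.am)) (Real.tanh (x - η' + p.am)) x := by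
      simpa only [sub_eq_add_neg, add_assoc] using t (-η' + p.am)
    have t3 : HasDerivAt (fun s : ℝ => ell (s + η' + p.gp)) (Real.tanh (x + η' + p.gp)) x := by
      simpa only [add_assoc] using t (η' + p.gp)
    have t4 : HasDerivAt (fun s : ℝ => ell (s - η' + p.gm)) (Real.tanh (x - η' + p.gm)) x := by
      simpa only [sub_eq_add_neg, add_assoc] using t (-η' + p.gm)
    exact ((((((t1.add t2).sub ((t p.a0).const_mul 2)).sub t3).sub t4).add
      ((t p.g0).const_mul 2)).add_const p.k)
  have hfm : ∀ x, 0 < x → f s' ≤ f x := fun x hx => hmin x x η' (by rw [abs_of_pos hx])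
  have e2 : f1 s' = 0 := by
    have hm : IsLocalMin f s' := by
      filter_upwards [lt_mem_nhds hs'] with x hx
      exact hfm x hx
    exact hm.hasDerivAt_eq_zero (hff s')
  have e2' : (ap + am - 2 * a) - (bp + bm - 2 * b) = 0 := by
    have : f1 s' = (ap + am - 2 * a) - (bp + bm - 2 * b) := by
      simp only [hf1]
      ring
    rw [← this, e2]
  -- (3)
  have e3 : 0 ≤ 2 * b - bp - bm := by
    have h : HasDerivAt (fun s => Ph p s' s η') (2 * b - bp - bm) s' := by
      have t : ∀ c : ℝ, HasDerivAt (fun s : ℝ => ell (s + c)) (Real.tanh (s' + c)) s' := fun c =>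
        (hd (s' + c)).comp_add_const s' c
      have t3 : HasDerivAt (fun s : ℝ => ell (s + η' + p.gp)) bp s' := by
        simpa only [hbp, add_assoc] using t (η' + p.gp)
      have t4 : HasDerivAt (fun s : ℝ => ell (s - η' + p.gm)) bm s' := by
        simpa only [hbm, sub_eq_add_neg, add_assoc] using t (-η' + p.gm)
      have := (((((hasDerivAt_const s' (ell (s' + η' + p.ap) + ell (s' - η' + p.am) -
        2 * ell (s' + p.a0))).sub t3).sub t4).add ((t p.g0).const_mul 2)).add_const p.k)
      refine this.congr_deriv ?_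
      ring
    refine CCRM.right_min h fun x hx => hmin s' x η' ?_
    rw [abs_of_pos hs']
    exact hx.le
  -- (4)
  set t := (2 * b - bp - bm) / 2 with ht
  set q := (ap - am) / 2 with hq
  have q1 : ap + am = 2 * (a - t) := by rw [ht]; linarith
  have q2 : bp + bm = 2 * (b - t) := by rw [ht]; linarith
  have q3 : ap - am = 2 * q := by rw [hq]; linarith
  have q4 : bp - bm = 2 * q := by rw [hq]; linarith
  have ht0 : t = 0 := by
    have hc : HasDerivAt f1 (4 * t * (a - b)) s' := by
      have r : ∀ c : ℝ, HasDerivAt (fun s : ℝ => Real.tanh (s + c))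
        (1 - Real.tanh (s' + c) ^ 2) s' := fun c => (hd2 (s' + c)).comp_add_const s' c
      have t1 : HasDerivAt (fun s : ℝ => Real.tanh (s + η' + p.ap)) (1 - ap ^ 2) s' := by
        simpa only [hap, add_assoc] using r (η' + p.ap)
      have t2 : HasDerivAt (fun s : ℝ => Real.tanh (s - η' + p.am)) (1 - am ^ 2) s' := by
        simpa only [ham, sub_eq_add_neg, add_assoc] using r (-η' + p.am)
      have t3 : HasDerivAt (fun s : ℝ => Real.tanh (s + η' + p.gp)) (1 - bp ^ 2) s' := by
        simpa only [hbp, add_assoc] using r (η' + p.gp)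
      have t4 : HasDerivAt (fun s : ℝ => Real.tanh (s - η' + p.gm)) (1 - bm ^ 2) s' := by
        simpa only [hbm, sub_eq_add_neg, add_assoc] using r (-η' + p.gm)
      have := (((((t1.add t2).sub ((r p.a0).const_mul 2)).sub t3).sub t4).add
        ((r p.g0).const_mul 2))
      refine this.congr_deriv ?_
      rw [← CCRM.alg q1 q2 q3 q4]
      ring
    have h1 : ¬ 4 * t * (a - b) < 0 := by
      intro hneg
      obtain ⟨⟨x, hx1, _, hx3⟩, _⟩ := hSOC f f1 s' _ hff e2 hc hneg 1 one_pos
      exact absurd (hfm x (hs'.trans hx1)) (not_le.2 hx3)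
    have h2 : 0 ≤ t := by rw [ht]; linarith
    rcases h2.eq_or_lt with h3 | h3
    · exact h3.symm
    · exfalso
      apply h1
      have : 0 < t * (b - a) := mul_pos h3 (by linarith)
      nlinarith
  -- (5)
  have hq0 : q = 0 := by
    by_contra hq0
    have hq2 : 0 < q ^ 2 := by positivity
    set g : ℝ → ℝ := fun m => Ph p m s' η' with hg
    set g1 : ℝ → ℝ := fun m => Real.tanh (m + η' + p.ap) + Real.tanh (m - η' + p.am) -
      2 * Real.tanh (m + p.a0) with hg1
    have hgg : ∀ x, HasDerivAt g (g1 x) x := by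
      intro x
      have t : ∀ c : ℝ, HasDerivAt (fun s : ℝ => ell (s + c)) (Real.tanh (x + c)) x := fun c =>
        (hd (x + c)).comp_add_const x c
      have t1 : HasDerivAt (fun s : ℝ => ell (s + η' + p.ap)) (Real.tanh (x + η' + p.ap)) x := by
        simpa only [add_assoc] using t (η' + p.ap)
      have t2 : HasDerivAt (fun s : ℝ => ell (s - η' + p.am)) (Real.tanh (x - η' + p.am)) x := by
        simpa only [sub_eq_add_neg, add_assoc] using t (-η' + p.am)
      exact (((((t1.add t2).sub ((t p.a0).const_mul 2)).sub_const _).sub_const _).add_const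
        _).add_const p.k
    have hg0 : g1 s' = 0 := by
      simp only [hg1]
      show ap + am - 2 * a = 0
      rw [q1, ht0]
      ring
    have hc : HasDerivAt g1 (-2 * q ^ 2) s' := by
      have r : ∀ c : ℝ, HasDerivAt (fun s : ℝ => Real.tanh (s + c))
        (1 - Real.tanh (s' + c) ^ 2) s' := fun c => (hd2 (s' + c)).comp_add_const s' c
      have t1 : HasDerivAt (fun s : ℝ => Real.tanh (s + η' + p.ap)) (1 - ap ^ 2) s' := by
        simpa only [hap, add_assoc] using r (η' + p.ap)
      have t2 : HasDerivAt (fun s : ℝ => Real.tanh (s - η' + p.am)) (1 - am ^ 2) s' := by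
        simpa only [ham, sub_eq_add_neg, add_assoc] using r (-η' + p.am)
      have := ((t1.add t2).sub ((r p.a0).const_mul 2))
      refine this.congr_deriv ?_
      have c1 : ap = a + q := by linarith
      have c2 : am = a - q := by linarith
      rw [c1, c2]
      ring
    obtain ⟨_, x, hx1, hx2, hx3⟩ := hSOC g g1 s' _ hgg hg0 hc (by linarith) s' hs'
    have := hmin x s' η' (by rw [abs_of_pos (by linarith)]; exact hx2.le)
    exact absurd this (not_le.2 hx3)
  -- (6)
  have hinj := hELF.tmono.injective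
  have f1' : ap = a := by linarith
  have f2' : am = a := by linarith
  have f3' : bp = b := by linarith
  have f4' : bm = b := by linarith
  have c1 := hinj f1'
  have c2 := hinj f2'
  have c3 := hinj f3'
  have c4 := hinj f4'
  rw [CCRM.Ph_const p 0 0 η' (by linarith) (by linarith) (by linarith) (by linarith),
    CCRM.Ph_const p s' s' η' (by linarith) (by linarith) (by linarith) (by linarith)]

end DS

end MP8622
end

section
set_option autoImplicit false

open Filter Topology

/-! Module CLC (helper78): all nonnegative couplings, by continuity. -/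

namespace MP8622

namespace DS

namespace CLCM

theorem cont_LL {V : Type} (B : Finset V) (J : V → V → ℝ) (Q : V → ℝ) :
    Continuous (fun ε : ℝ => LL B (fun x y => J x y + ε) Q) := by
  unfold LL
  apply Continuous.log
  · unfold ZZ
    apply continuous_finset_sum
    intro S _
    apply Real.continuous_exp.comp
    unfold En
    apply Continuous.add
    · apply continuous_finset_sum
      intro x _
      apply continuous_finset_sum
      intro y _
      exact (continuous_const.add continuous_id).mul continuous_const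
    · exact continuous_const
  · intro ε
    exact (ZZ_pos B _ Q).ne'

end CLCM

theorem specCLC (hCLM : SpecCLM) : SpecCLC := by
  intro V B J hJ h M P hMP
  have hc : Continuous (fun ε : ℝ => EE B (fun x y => J x y + ε) h M P) := by
    unfold EE
    exact (((CLCM.cont_LL B J _).add (CLCM.cont_LL B J _)).sub
      (continuous_const.mul (CLCM.cont_LL B J _))).sub
      (((CLCM.cont_LL B J _).add (CLCM.cont_LL B J _)).sub
      (continuous_const.mul (CLCM.cont_LL B J _)))
  have ht : Tendsto (fun ε : ℝ => EE B (fun x y => J x y + ε) h M P) (𝓝[>] 0)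
      (𝓝 (EE B (fun x y => J x y + 0) h M P)) :=
    (hc.tendsto 0).mono_left nhdsWithin_le_nhds
  have e0 : (fun x y => J x y + 0) = J := by
    funext x y
    rw [add_zero]
  rw [e0] at ht
  apply ge_of_tendsto ht
  filter_upwards [self_mem_nhdsWithin] with ε hε
  rw [Set.mem_Ioi] at hε
  apply hCLM V B (fun x y => J x y + ε)
  · intro x y
    have := hJ x y
    linarith
  · intro x _ y _ _
    unfold KK
    have := hJ x y
    have := hJ y x
    linarith
  · exact hMP

end DS

end MP8622
end

section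
set_option autoImplicit false

open Classical Filter Topology

/-!
# MP_8622f1_pr, the Ding-Song-Sun inequality: module CLM (positive couplings)
-/

namespace MP8622

namespace DS

namespace CLMM

theorem EE_zero {V : Type} (B : Finset V) (J : V → V → ℝ) (h M P : V → ℝ)
    (hM : ∀ x ∈ B, M x = 0) (hP : ∀ x ∈ B, P x = 0) : EE B J h M P = 0 := by
  have h1 : EE B J h M P = EE B J h (fun _ => 0) (fun _ => 0) :=
    EE_congr (fun _ _ => rfl) hM hP
  rw [h1]
  unfold EE
  ring

end CLMM

open CLMM in
theorem specCLM (hONE : SpecONE) : SpecCLM := by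
  intro V B
  induction B using Finset.strongInduction with
  | H B ih =>
    intro J hJ hK h M P hMP
    by_contra hneg
    push Not at hneg
    have hrec : ∀ u ∈ B, ∀ h M P : V → ℝ, (∀ x ∈ B.erase u, |M x| ≤ P x) →
        0 ≤ EE (B.erase u) J h M P := by
      intro u hu
      refine ih (B.erase u) (Finset.erase_ssubset hu) J hJ ?_
      intro x hx y hy hxy
      exact hK x (Finset.mem_of_mem_erase hx) y (Finset.mem_of_mem_erase hy) hxy
    have key : ∀ U : Finset V, U ⊆ B → ∃ h' M' P' : V → ℝ, (∀ x ∈ U, M' x = 0 ∧ P' x = 0) ∧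
        (∀ x, x ∉ U → M' x = M x ∧ P' x = P x) ∧ EE B J h' M' P' ≤ EE B J h M P := by
      intro U
      induction U using Finset.induction_on with
      | empty =>
        intro _
        exact ⟨h, M, P, by simp, fun x _ => ⟨rfl, rfl⟩, le_refl _⟩
      | insert u U hu ihU =>
        intro hsub
        have huB : u ∈ B := hsub (Finset.mem_insert_self u U)
        obtain ⟨h', M', P', h0, h1, hle⟩ := ihU fun x hx => hsub (Finset.mem_insert_of_mem hx)
        have hMP' : ∀ x ∈ B, |M' x| ≤ P' x := by
          intro x hx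
          by_cases hxU : x ∈ U
          · rw [(h0 x hxU).1, (h0 x hxU).2, abs_zero]
          · rw [(h1 x hxU).1, (h1 x hxU).2]
            exact hMP x hx
        obtain ⟨η, hη⟩ := hONE V B J h' M' P' u huB hJ
          (fun v hv => hK u huB v (Finset.mem_of_mem_erase hv) (Finset.ne_of_mem_erase hv).symm)
          hMP' (hrec u huB) (lt_of_le_of_lt hle hneg)
        refine ⟨Function.update h' u η, Function.update M' u 0, Function.update P' u 0, ?_, ?_,
          hη.trans hle⟩
        · intro x hx
          by_cases hxu : x = u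
          · subst hxu
            simp
          · rw [Function.update_of_ne hxu, Function.update_of_ne hxu]
            exact h0 x (Finset.mem_of_mem_insert_of_ne hx hxu)
        · intro x hx
          rw [Finset.mem_insert, not_or] at hx
          rw [Function.update_of_ne hx.1, Function.update_of_ne hx.1]
          exact h1 x hx.2
    obtain ⟨h', M', P', h0, _, hle⟩ := key B (Finset.Subset.refl B)
    have h2 := EE_zero B J h' M' P' (fun x hx => (h0 x hx).1) (fun x hx => (h0 x hx).2)
    linarith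

end DS

end MP8622
end

section
set_option autoImplicit false

open Classical Filter Topology

/-!
# MP_8622f1_pr, the Ding-Song-Sun inequality: existence of the minimum
-/

namespace MP8622

namespace DS

namespace CMIM

theorem small {L t : ℝ} (hL : 0 < L) (ht : 1 / L ≤ t) : 2 * Real.exp (-2 * t) < L := by
  have h1 : 2 * t + 1 ≤ Real.exp (2 * t) := Real.add_one_le_exp (2 * t)
  have h2 : 1 ≤ t * L := by
    rw [div_le_iff₀ hL] at ht
    exact ht
  have h3 : Real.exp (-2 * t) * Real.exp (2 * t) = 1 := by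
    rw [← Real.exp_add]
    simp
  have h4 : 0 < Real.exp (-2 * t) := Real.exp_pos _
  have h5 : 2 < L * Real.exp (2 * t) := by nlinarith
  nlinarith

theorem small' {L t : ℝ} (hL : 0 < L) (ht : 1 / L ≤ t) : Real.exp (-2 * t) < L := by
  have h1 := small hL ht
  have h4 : 0 < Real.exp (-2 * t) := Real.exp_pos _
  linarith

theorem far (h : EllF) {x a b : ℝ} (hb : x + b ≤ 0) :
    b - a - Real.exp (2 * (x + b)) ≤ ell (x + a) - ell (x + b) := by
  have h1 := (neg_le_abs (x + a)).trans (h.ge_abs (x + a))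
  have h2 := h.le_abs (x + b)
  rw [abs_of_nonpos hb] at h2
  have h3 : -2 * -(x + b) = 2 * (x + b) := by ring
  rw [h3] at h2
  linarith

theorem near (h : EllF) {x a b : ℝ} (hab : a ≤ b) : a - b ≤ ell (x + a) - ell (x + b) := by
  have h1 := h.lip (x + a) (x + b)
  have h2 : |x + a - (x + b)| = b - a := by
    rw [show x + a - (x + b) = -(b - a) by ring, abs_neg, abs_of_nonneg (by linarith)]
  rw [h2] at h1
  have h3 := neg_abs_le (ell (x + a) - ell (x + b))
  linarith

end CMIM

open CMIM

/-- Module CMI. -/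
theorem specCMI (hELF : SpecELF) : SpecCMI := by
  have h : EllF := hELF
  intro p hp h1 h2 E0 hE0 ⟨s0, η0, hs0, hf0⟩
  set L : ℝ := -E0 with hL
  have hLp : 0 < L := by rw [hL]; linarith
  have hLi : 0 < 1 / L := by positivity
  obtain ⟨f, hf⟩ : ∃ f : ℝ → ℝ → ℝ, ∀ s η, f s η = Ph p s s η := ⟨fun s η => Ph p s s η, fun _ _ => rfl⟩
  have fdef : ∀ s η, f s η = ell (s + η + p.ap) + ell (s - η + p.am) - 2 * ell (s + p.a0) -
      ell (s + η + p.gp) - ell (s - η + p.gm) + 2 * ell (s + p.g0) + p.k := by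
    intro s η
    rw [hf]
    rfl
  have ha0 := neg_abs_le p.a0
  have hgp := le_abs_self p.gp
  have hgm := le_abs_self p.gm
  have habs := abs_le.mp (hp.h3)
  have hag : p.a0 ≤ p.g0 := (le_abs_self _).trans hp.h1
  set R : ℝ := 1 / L + |p.a0| with hR
  set H : ℝ := R + |p.gm| + |p.gp| + 1 / L with hH
  have hRp : 0 ≤ R := by rw [hR]; positivity
  have hHp : 0 ≤ H := by rw [hH]; positivity
  have gp0 := abs_nonneg p.gp
  have gm0 := abs_nonneg p.gm
  -- large `s`
  have b1 : ∀ s η, R ≤ s → E0 < f s η := by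
    intro s η hs
    have t0 : 1 / L ≤ s + p.a0 := by rw [hR] at hs; linarith
    have t1 := small hLp t0
    have e1 := near h (x := s + η) h1.le
    have e2 := near h (x := s - η) h2.le
    have e3 := (le_abs_self (s + p.g0)).trans (h.ge_abs (s + p.g0))
    have e4 := h.le_abs (s + p.a0)
    rw [abs_of_nonneg (by linarith : (0 : ℝ) ≤ s + p.a0)] at e4
    have e5 := hp.h2p
    rw [fdef]
    linarith
  -- bounded `s`, large `η`
  have b2 : ∀ s η, 0 ≤ s → s ≤ R → H ≤ η → E0 < f s η := by
    intro s η hs hsR hη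
    have t0 : 1 / L ≤ -(s - η + p.gm) := by rw [hH] at hη; linarith
    have t1 := small' hLp t0
    have e1 := near h (x := s + η) h1.le
    have e2 := far h (x := s - η) (a := p.am) (b := p.gm) (by linarith)
    have e3 := h.mono p.a0 p.g0 0 s hag hs
    have e4 : -2 * -(s - η + p.gm) = 2 * (s - η + p.gm) := by ring
    rw [e4] at t1
    rw [zero_add, zero_add] at e3
    rw [fdef]
    linarith [habs.1]
  -- bounded `s`, very negative `η`
  have b3 : ∀ s η, 0 ≤ s → s ≤ R → η ≤ -H → E0 < f s η := by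
    intro s η hs hsR hη
    have t0 : 1 / L ≤ -(s + η + p.gp) := by rw [hH] at hη; linarith
    have t1 := small' hLp t0
    have e1 := near h (x := s - η) h2.le
    have e2 := far h (x := s + η) (a := p.ap) (b := p.gp) (by linarith)
    have e3 := h.mono p.a0 p.g0 0 s hag hs
    have e4 : -2 * -(s + η + p.gp) = 2 * (s + η + p.gp) := by ring
    rw [e4] at t1
    rw [zero_add, zero_add] at e3
    rw [fdef]
    linarith [habs.2]
  have ell_cont : Continuous ell := continuous_iff_continuousAt.mpr fun x => (h.deriv x).continuousAt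
  have fcont : Continuous fun z : ℝ × ℝ => f z.1 z.2 := by
    simp only [fdef]
    fun_prop
  have hK : IsCompact (Set.Icc (0 : ℝ) R ×ˢ Set.Icc (-H) H) := isCompact_Icc.prod isCompact_Icc
  have hin : ∀ s η, 0 ≤ s → ¬ (s, η) ∈ Set.Icc (0 : ℝ) R ×ˢ Set.Icc (-H) H → E0 < f s η := by
    intro s η hs hn
    by_cases c1 : R ≤ s
    · exact b1 s η c1
    · push Not at c1
      by_cases c2 : H ≤ η
      · exact b2 s η hs c1.le c2
      · by_cases c3 : η ≤ -H
        · exact b3 s η hs c1.le c3
        · push Not at c2 c3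
          exact absurd ⟨⟨hs, c1.le⟩, ⟨c3.le, c2.le⟩⟩ hn
  have h0 : (s0, η0) ∈ Set.Icc (0 : ℝ) R ×ˢ Set.Icc (-H) H := by
    by_contra hn
    have h3 := hin s0 η0 hs0 hn
    rw [hf] at h3
    exact absurd h3 (not_lt.mpr hf0)
  obtain ⟨z, hz, hmin⟩ := hK.exists_isMinOn ⟨_, h0⟩ fcont.continuousOn
  rw [isMinOn_iff] at hmin
  refine ⟨z.1, z.2, hz.1.1, ?_⟩
  intro s η hs
  rw [← hf, ← hf]
  by_cases c : (s, η) ∈ Set.Icc (0 : ℝ) R ×ˢ Set.Icc (-H) H
  · exact hmin (s, η) c
  · have h3 := hmin (s0, η0) h0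
    have h4 := hin s η hs c
    have h5 : f s0 η0 ≤ E0 := by
      rw [hf]
      exact hf0
    exact (h3.trans h5).trans h4.le

end DS

end MP8622
end

section
set_option autoImplicit false

/-! Module CMO (helper78): the monotone cases. -/

namespace MP8622

namespace DS

theorem specCMO (hELF : SpecELF) : SpecCMO := by
  intro p h0 hn s η hs
  have hm := EllF.mono hELF
  have h3 := hm p.a0 p.g0 0 s h0 hs
  have hcases : p.gp ≤ p.ap ∨ p.gm ≤ p.am := by
    by_contra hc
    push Not at hc
    exact hn hc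
  unfold Ph
  rcases hcases with h | h
  · rcases le_total p.gm p.am with h' | h'
    · refine ⟨η, ?_⟩
      have h1 := hm p.gp p.ap η (s + η) h (by linarith)
      have h2 := hm p.gm p.am (-η) (s - η) h' (by linarith)
      simp only [zero_add, zero_sub] at h3 ⊢
      linarith
    · refine ⟨η - s, ?_⟩
      have h1 := hm p.gp p.ap (η - s) (s + η) h (by linarith)
      have e : (0 : ℝ) - (η - s) = s - η := by ring
      rw [e]
      simp only [zero_add] at h3 ⊢
      linarith
  · rcases le_total p.gp p.ap with h' | h'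
    · refine ⟨η, ?_⟩
      have h1 := hm p.gp p.ap η (s + η) h' (by linarith)
      have h2 := hm p.gm p.am (-η) (s - η) h (by linarith)
      simp only [zero_add, zero_sub] at h3 ⊢
      linarith
    · refine ⟨s + η, ?_⟩
      have h2 := hm p.gm p.am (-(s + η)) (s - η) h (by linarith)
      simp only [zero_add, zero_sub] at h3 ⊢
      linarith

end DS

end MP8622
end

section
set_option autoImplicit false

open Classical Filter Topology

/-!
# MP_8622f1_pr, DS: CVU (the Ding-Song-Sun inequality), helper52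
-/

namespace MP8622

namespace DS

namespace CVUM

theorem sp_compl {V : Type} {B S : Finset V} {z : V} (hz : z ∈ B) : sp (B \ S) z = -sp S z := by
  unfold sp
  by_cases h : z ∈ S
  · rw [if_neg (fun h' => (Finset.mem_sdiff.1 h').2 h), if_pos h, neg_neg]
  · rw [if_pos (Finset.mem_sdiff.2 ⟨hz, h⟩), if_neg h]

theorem En_neg {V : Type} (B : Finset V) (J : V → V → ℝ) (Q : V → ℝ) (S : Finset V) :
    En B J (-Q) (B \ S) = En B J Q S := by
  unfold En
  congr 1
  · refine Finset.sum_congr rfl fun x hx => Finset.sum_congr rfl fun y hy => ?_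
    rw [sp_compl hx, sp_compl hy]; ring
  · refine Finset.sum_congr rfl fun x hx => ?_
    rw [sp_compl hx, Pi.neg_apply]; ring

theorem ZZ_neg {V : Type} (B : Finset V) (J : V → V → ℝ) (Q : V → ℝ) :
    ZZ B J (-Q) = ZZ B J Q := by
  unfold ZZ
  symm
  refine Finset.sum_bij' (fun S _ => B \ S) (fun S _ => B \ S) ?_ ?_ ?_ ?_ ?_
  · intro S _; exact Finset.mem_powerset.2 Finset.sdiff_subset
  · intro S _; exact Finset.mem_powerset.2 Finset.sdiff_subset
  · intro S hS
    rw [Finset.sdiff_sdiff_eq_self (Finset.mem_powerset.1 hS)]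
  · intro S hS
    rw [Finset.sdiff_sdiff_eq_self (Finset.mem_powerset.1 hS)]
  · intro S hS
    rw [En_neg]

theorem Su_const {V : Type} (B : Finset V) (J : V → V → ℝ) (Q : V → ℝ) (F : Finset V → ℝ)
    (c : ℝ) (h : ∀ S ⊆ B, F S = c) : Su B J Q F = c * ZZ B J Q := by
  unfold Su ZZ
  rw [Finset.mul_sum]
  exact Finset.sum_congr rfl fun S hS => by rw [h S (Finset.mem_powerset.1 hS)]

/-- the four configurations of the spins at `x` and `y` -/
theorem four (hR : SpecREC) {V : Type} (B : Finset V) (J : V → V → ℝ) (Q : V → ℝ) (x y : V)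
    (hx : x ∈ B) (hy : y ∈ B) (hxy : x ≠ y) (f : ℝ → ℝ → ℝ) :
    Su B J Q (fun S => f (sp S x) (sp S y)) = (Real.exp (J x x) * Real.exp (J y y)) *
      (f 1 1 * (Real.exp (Q x + Q y + KK J x y) *
          ZZ ((B.erase x).erase y) J (Q + KK J x + KK J y)) +
        f 1 (-1) * (Real.exp (Q x - Q y - KK J x y) *
          ZZ ((B.erase x).erase y) J (Q + KK J x - KK J y)) +
        f (-1) 1 * (Real.exp (-Q x + Q y - KK J x y) *
          ZZ ((B.erase x).erase y) J (Q - KK J x + KK J y)) +
        f (-1) (-1) * (Real.exp (-Q x - Q y + KK J x y) *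
          ZZ ((B.erase x).erase y) J (Q - KK J x - KK J y))) := by
  have hy1 : y ∈ B.erase x := Finset.mem_erase.2 ⟨hxy.symm, hy⟩
  rw [hR V B J Q x _ hx, hR V (B.erase x) J (Q + KK J x) y _ hy1,
    hR V (B.erase x) J (Q - KK J x) y _ hy1]
  have nx : ∀ S ⊆ (B.erase x).erase y, x ∉ S := fun S hS h => by
    have := Finset.mem_erase.1 (Finset.mem_erase.1 (hS h)).2
    exact this.1 rfl
  have ny : ∀ S ⊆ (B.erase x).erase y, y ∉ S := fun S hS h => by
    have := Finset.mem_erase.1 (hS h)
    exact this.1 rfl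
  rw [Su_const _ _ (Q + KK J x + KK J y) _ (f 1 1) (fun S hS => by
      simp [sp, nx S hS, ny S hS]),
    Su_const _ _ (Q + KK J x - KK J y) _ (f 1 (-1)) (fun S hS => by
      simp [sp, nx S hS, hxy]),
    Su_const _ _ (Q - KK J x + KK J y) _ (f (-1) 1) (fun S hS => by
      simp [sp, ny S hS, hxy.symm]),
    Su_const _ _ (Q - KK J x - KK J y) _ (f (-1) (-1)) (fun S hS => by
      simp [sp])]
  have e1 : Real.exp (Q x + Q y + KK J x y) = Real.exp (Q x) * Real.exp ((Q + KK J x) y) := by
    rw [← Real.exp_add, Pi.add_apply]; congr 1; ring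
  have e2 : Real.exp (Q x - Q y - KK J x y) = Real.exp (Q x) * Real.exp (-(Q + KK J x) y) := by
    rw [← Real.exp_add, Pi.add_apply]; congr 1; ring
  have e3 : Real.exp (-Q x + Q y - KK J x y) = Real.exp (-Q x) * Real.exp ((Q - KK J x) y) := by
    rw [← Real.exp_add, Pi.sub_apply]; congr 1; ring
  have e4 : Real.exp (-Q x - Q y + KK J x y) = Real.exp (-Q x) * Real.exp (-(Q - KK J x) y) := by
    rw [← Real.exp_add, Pi.sub_apply]; congr 1; ring
  rw [e1, e2, e3, e4]
  ring

theorem alg {a b c d α δ : ℝ} (ha : 0 < a) (hb : 0 < b) (hc : 0 < c) (hd : 0 < d) (hα : 0 < α)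
    (hδ : 0 < δ) (hle : δ ≤ α) (h : a * d * δ ^ 2 ≤ b * c * α ^ 2) :
    4 * (a * d - b * c) / (a + b + c + d) ^ 2 ≤ (α - δ) / (α + δ) := by
  have hr : 0 ≤ (α - δ) / (α + δ) := div_nonneg (by linarith) (by linarith)
  rcases le_or_gt (a * d) (b * c) with hcase | hcase
  · refine le_trans ?_ hr
    exact div_nonpos_of_nonpos_of_nonneg (by linarith) (by positivity)
  · set s := Real.sqrt (a * d) with hs
    set t := Real.sqrt (b * c) with ht
    have had : 0 < a * d := mul_pos ha hd
    have hbc : 0 < b * c := mul_pos hb hc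
    have hs0 : 0 < s := Real.sqrt_pos.2 had
    have ht0 : 0 < t := Real.sqrt_pos.2 hbc
    have hs2 : s ^ 2 = a * d := Real.sq_sqrt had.le
    have ht2 : t ^ 2 = b * c := Real.sq_sqrt hbc.le
    have hts : t < s := Real.sqrt_lt_sqrt hbc.le hcase
    have h1 : s * δ ≤ t * α := by
      have : (s * δ) ^ 2 ≤ (t * α) ^ 2 := by
        rw [mul_pow, mul_pow, hs2, ht2]; exact h
      exact abs_le_of_sq_le_sq' this (by positivity) |>.2
    have h2 : 2 * s ≤ a + d := by
      have : (2 * s) ^ 2 ≤ (a + d) ^ 2 := by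
        rw [mul_pow, hs2]; nlinarith [sq_nonneg (a - d)]
      exact abs_le_of_sq_le_sq' this (by positivity) |>.2
    have h3 : 2 * t ≤ b + c := by
      have : (2 * t) ^ 2 ≤ (b + c) ^ 2 := by
        rw [mul_pow, ht2]; nlinarith [sq_nonneg (b - c)]
      exact abs_le_of_sq_le_sq' this (by positivity) |>.2
    have h4 : (2 * s + 2 * t) ^ 2 ≤ (a + b + c + d) ^ 2 := by
      apply pow_le_pow_left₀ (by positivity)
      linarith
    have h5 : 4 * (a * d - b * c) / (a + b + c + d) ^ 2 ≤
        4 * (a * d - b * c) / (2 * s + 2 * t) ^ 2 := by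
      apply div_le_div_of_nonneg_left (by linarith) (by positivity) h4
    refine h5.trans ?_
    have h6 : 4 * (a * d - b * c) / (2 * s + 2 * t) ^ 2 = (s - t) / (s + t) := by
      rw [← hs2, ← ht2]
      field_simp
      ring
    rw [h6, div_le_div_iff₀ (by linarith) (by linarith)]
    nlinarith

/-- the covariance in terms of the four weights -/
theorem cov_eq {C a b c d : ℝ} (hC : 0 < C) (ha : 0 < a) (hb : 0 < b) (hc : 0 < c) (hd : 0 < d) :
    C * (1 * a + -1 * b + -1 * c + 1 * d) / (C * (1 * a + 1 * b + 1 * c + 1 * d)) -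
      C * (1 * a + 1 * b + -1 * c + -1 * d) / (C * (1 * a + 1 * b + 1 * c + 1 * d)) *
        (C * (1 * a + -1 * b + 1 * c + -1 * d) / (C * (1 * a + 1 * b + 1 * c + 1 * d))) =
      4 * (a * d - b * c) / (a + b + c + d) ^ 2 := by
  have : 0 < a + b + c + d := by positivity
  have h1 : 1 * a + 1 * b + 1 * c + 1 * d = a + b + c + d := by ring
  rw [h1]
  field_simp
  ring

end CVUM

open CVUM in
theorem specCVU (hC : SpecCLC) (hR : SpecREC) (hM : SpecMON) : SpecCVU := by
  intro V B J hJ Q x y hx hy hxy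
  set B' := (B.erase x).erase y with hB'
  have hKn : ∀ u v, 0 ≤ KK J u v := fun u v => add_nonneg (hJ u v) (hJ v u)
  have hZ : ∀ Q : V → ℝ, ZZ B J Q = Su B J Q (fun S => (fun _ _ => (1 : ℝ)) (sp S x) (sp S y)) := by
    intro Q
    unfold Su ZZ
    exact Finset.sum_congr rfl fun S _ => (one_mul _).symm
  have hCpos : 0 < Real.exp (J x x) * Real.exp (J y y) := mul_pos (Real.exp_pos _) (Real.exp_pos _)
  -- the covariance with the fields
  have hl : ex B J Q (fun S => sp S x * sp S y) - ex B J Q (fun S => sp S x) *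
      ex B J Q (fun S => sp S y) =
      4 * ((Real.exp (Q x + Q y + KK J x y) * ZZ B' J (Q + KK J x + KK J y)) *
          (Real.exp (-Q x - Q y + KK J x y) * ZZ B' J (Q - KK J x - KK J y)) -
        (Real.exp (Q x - Q y - KK J x y) * ZZ B' J (Q + KK J x - KK J y)) *
          (Real.exp (-Q x + Q y - KK J x y) * ZZ B' J (Q - KK J x + KK J y))) /
        (Real.exp (Q x + Q y + KK J x y) * ZZ B' J (Q + KK J x + KK J y) +
          Real.exp (Q x - Q y - KK J x y) * ZZ B' J (Q + KK J x - KK J y) +
          Real.exp (-Q x + Q y - KK J x y) * ZZ B' J (Q - KK J x + KK J y) +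
          Real.exp (-Q x - Q y + KK J x y) * ZZ B' J (Q - KK J x - KK J y)) ^ 2 := by
    unfold ex
    rw [hZ Q, four hR B J Q x y hx hy hxy (fun _ _ => (1 : ℝ))]
    rw [show Su B J Q (fun S => sp S x * sp S y) =
      Su B J Q (fun S => (fun s t => s * t) (sp S x) (sp S y)) from rfl,
      show Su B J Q (fun S => sp S x) = Su B J Q (fun S => (fun s _ => s) (sp S x) (sp S y)) from rfl,
      show Su B J Q (fun S => sp S y) = Su B J Q (fun S => (fun _ t => t) (sp S x) (sp S y)) from rfl,
      four hR B J Q x y hx hy hxy (fun s t => s * t), four hR B J Q x y hx hy hxy (fun s _ => s),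
      four hR B J Q x y hx hy hxy (fun _ t => t), ← hB']
    rw [← cov_eq hCpos (mul_pos (Real.exp_pos (Q x + Q y + KK J x y)) (ZZ_pos B' J (Q + KK J x + KK J y)))
      (mul_pos (Real.exp_pos (Q x - Q y - KK J x y)) (ZZ_pos B' J (Q + KK J x - KK J y)))
      (mul_pos (Real.exp_pos (-Q x + Q y - KK J x y)) (ZZ_pos B' J (Q - KK J x + KK J y)))
      (mul_pos (Real.exp_pos (-Q x - Q y + KK J x y)) (ZZ_pos B' J (Q - KK J x - KK J y)))]
    norm_num
  -- the correlation without fields
  set α := Real.exp (KK J x y) * ZZ B' J (KK J x + KK J y) with hα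
  set δ := Real.exp (-KK J x y) * ZZ B' J (KK J x - KK J y) with hδ
  have hα0 : 0 < α := mul_pos (Real.exp_pos _) (ZZ_pos _ _ _)
  have hδ0 : 0 < δ := mul_pos (Real.exp_pos _) (ZZ_pos _ _ _)
  have hr : ex B J 0 (fun S => sp S x * sp S y) = (α - δ) / (α + δ) := by
    unfold ex
    rw [hZ 0, four hR B J 0 x y hx hy hxy (fun _ _ => (1 : ℝ)),
      show Su B J 0 (fun S => sp S x * sp S y) =
        Su B J 0 (fun S => (fun s t => s * t) (sp S x) (sp S y)) from rfl,
      four hR B J 0 x y hx hy hxy (fun s t => s * t)]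
    have z1 : (0 : V → ℝ) + KK J x + KK J y = KK J x + KK J y := by rw [zero_add]
    have z2 : (0 : V → ℝ) + KK J x - KK J y = KK J x - KK J y := by rw [zero_add]
    have z3 : (0 : V → ℝ) - KK J x + KK J y = -(KK J x - KK J y) := by
      funext v; simp only [Pi.add_apply, Pi.sub_apply, Pi.neg_apply, Pi.zero_apply]; ring
    have z4 : (0 : V → ℝ) - KK J x - KK J y = -(KK J x + KK J y) := by
      funext v; simp only [Pi.add_apply, Pi.sub_apply, Pi.neg_apply, Pi.zero_apply]; ring
    rw [z1, z2, z3, z4, ZZ_neg, ZZ_neg]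
    simp only [Pi.zero_apply, neg_zero, zero_add, zero_sub, add_zero, sub_zero]
    rw [← hα, ← hδ]
    have hs : 0 < α + δ := by positivity
    field_simp
    ring
  rw [hl, hr]
  apply alg (mul_pos (Real.exp_pos _) (ZZ_pos _ _ _)) (mul_pos (Real.exp_pos _) (ZZ_pos _ _ _))
    (mul_pos (Real.exp_pos _) (ZZ_pos _ _ _)) (mul_pos (Real.exp_pos _) (ZZ_pos _ _ _)) hα0 hδ0
  · -- `δ ≤ α`
    have h1 : Real.exp (-KK J x y) ≤ Real.exp (KK J x y) :=
      Real.exp_le_exp.2 (by have := hKn x y; linarith)
    have h2 : ZZ B' J (KK J x - KK J y) ≤ ZZ B' J (KK J x + KK J y) := by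
      refine hM V B' J _ _ hJ fun v _ => ?_
      have := hKn x v
      have := hKn y v
      simp only [Pi.add_apply, Pi.sub_apply]
      rw [abs_le]
      constructor <;> linarith
    exact mul_le_mul h1 h2 (ZZ_pos _ _ _).le (Real.exp_pos _).le
  · -- the four function inequality from `EE`
    have hEE := hC V B' J hJ Q (KK J x - KK J y) (KK J x + KK J y) (fun v _ => by
      have := hKn x v
      have := hKn y v
      simp only [Pi.add_apply, Pi.sub_apply]
      rw [abs_le]
      constructor <;> linarith)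
    set M := KK J x - KK J y with hMdef
    set P := KK J x + KK J y with hPdef
    have q1 : Q + KK J x + KK J y = P + Q := by rw [hPdef]; abel
    have q2 : Q + KK J x - KK J y = M + Q := by rw [hMdef]; abel
    have q3 : Q - KK J x + KK J y = -(M - Q) := by rw [hMdef]; abel
    have q4 : Q - KK J x - KK J y = -(P - Q) := by rw [hPdef]; abel
    rw [q1, q2, q3, q4, ZZ_neg, ZZ_neg]
    have hexp : ZZ B' J (P + Q) * ZZ B' J (P - Q) * ZZ B' J M ^ 2 ≤
        ZZ B' J (M + Q) * ZZ B' J (M - Q) * ZZ B' J P ^ 2 := by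
      have he : ∀ R : V → ℝ, ZZ B' J R = Real.exp (LL B' J R) := fun R =>
        (Real.exp_log (ZZ_pos B' J R)).symm
      rw [he (P + Q), he (P - Q), he M, he (M + Q), he (M - Q), he P, ← Real.exp_add,
        ← Real.exp_add, ← Real.exp_nat_mul, ← Real.exp_nat_mul, ← Real.exp_add, ← Real.exp_add]
      apply Real.exp_le_exp.2
      unfold EE at hEE
      push_cast
      linarith
    have c1 : Real.exp (Q x + Q y + KK J x y) * Real.exp (-Q x - Q y + KK J x y) =
        Real.exp (KK J x y) ^ 2 := by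
      rw [← Real.exp_add, ← Real.exp_nat_mul]; congr 1; push_cast; ring
    have c2 : Real.exp (Q x - Q y - KK J x y) * Real.exp (-Q x + Q y - KK J x y) =
        Real.exp (-KK J x y) ^ 2 := by
      rw [← Real.exp_add, ← Real.exp_nat_mul]; congr 1; push_cast; ring
    have l1 : Real.exp (Q x + Q y + KK J x y) * ZZ B' J (P + Q) *
        (Real.exp (-Q x - Q y + KK J x y) * ZZ B' J (P - Q)) * δ ^ 2 =
        (Real.exp (KK J x y) ^ 2 * Real.exp (-KK J x y) ^ 2) *
          (ZZ B' J (P + Q) * ZZ B' J (P - Q) * ZZ B' J M ^ 2) := by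
      rw [hδ, ← c1]; ring
    have l2 : Real.exp (Q x - Q y - KK J x y) * ZZ B' J (M + Q) *
        (Real.exp (-Q x + Q y - KK J x y) * ZZ B' J (M - Q)) * α ^ 2 =
        (Real.exp (KK J x y) ^ 2 * Real.exp (-KK J x y) ^ 2) *
          (ZZ B' J (M + Q) * ZZ B' J (M - Q) * ZZ B' J P ^ 2) := by
      rw [hα, ← c2]; ring
    rw [l1, l2]
    exact mul_le_mul_of_nonneg_left hexp (by positivity)

end DS

end MP8622
end

section
set_option autoImplicit false

open Classical Filter Topology

namespace MP8622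

namespace DS

namespace DUPM

theorem Su_one {V : Type} (B : Finset V) (J : V → V → ℝ) (Q : V → ℝ) :
    Su B J Q (fun _ => 1) = ZZ B J Q := by
  unfold Su ZZ
  exact Finset.sum_congr rfl fun S _ => one_mul _

theorem rec1 (hR : SpecREC) {V : Type} (B : Finset V) (J : V → V → ℝ) (Q : V → ℝ) (u : V)
    (hu : u ∉ B) : ZZ (insert u B) J Q = Real.exp (J u u) *
      (Real.exp (Q u) * ZZ B J (Q + KK J u) + Real.exp (-Q u) * ZZ B J (Q - KK J u)) := by
  have h := hR V (insert u B) J Q u (fun _ => 1) (Finset.mem_insert_self u B)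
  rw [Su_one, Su_one, Su_one, Finset.erase_insert hu] at h
  exact h

theorem KK2 {V : Type} (J : V → V → ℝ) (u : V) :
    KK (fun x y => 2 * J x y) u = KK J u + KK J u := by
  funext v
  simp only [KK, Pi.add_apply]
  ring

end DUPM

open DUPM in
theorem specDUP (hR : SpecREC) : SpecDUP := by
  intro V B J
  induction B using Finset.induction_on with
  | empty =>
    intro Q Q'
    simp [ZZ, En]
  | insert u B hu ih =>
    intro Q Q'
    rw [Finset.sum_powerset_insert hu]
    rw [rec1 hR B J Q u hu, rec1 hR B J Q' u hu]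
    have hl : Real.exp (J u u) *
          (Real.exp (Q u) * ZZ B J (Q + KK J u) + Real.exp (-Q u) * ZZ B J (Q - KK J u)) *
        (Real.exp (J u u) *
          (Real.exp (Q' u) * ZZ B J (Q' + KK J u) + Real.exp (-Q' u) * ZZ B J (Q' - KK J u))) =
        (Real.exp (J u u) * Real.exp (J u u)) *
        ((Real.exp (Q u) * Real.exp (-Q' u)) * (ZZ B J (Q + KK J u) * ZZ B J (Q' - KK J u)) +
          (Real.exp (-Q u) * Real.exp (Q' u)) * (ZZ B J (Q - KK J u) * ZZ B J (Q' + KK J u))) +
        (Real.exp (J u u) * Real.exp (J u u)) *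
        ((Real.exp (Q u) * Real.exp (Q' u)) * (ZZ B J (Q + KK J u) * ZZ B J (Q' + KK J u)) +
          (Real.exp (-Q u) * Real.exp (-Q' u)) * (ZZ B J (Q - KK J u) * ZZ B J (Q' - KK J u))) := by
      ring
    rw [hl, ih, ih, ih, ih, Finset.mul_sum, Finset.mul_sum, Finset.mul_sum, Finset.mul_sum,
      ← Finset.sum_add_distrib, ← Finset.sum_add_distrib, Finset.mul_sum, Finset.mul_sum]
    have e1 : (Q + KK J u) + (Q' - KK J u) = Q + Q' := by funext v; simp only [Pi.add_apply, Pi.sub_apply]; ring
    have e2 : (Q + KK J u) - (Q' - KK J u) = (Q - Q') + KK (fun x y => 2 * J x y) u := by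
      rw [KK2]; funext v; simp only [Pi.add_apply, Pi.sub_apply]; ring
    have e3 : (Q - KK J u) + (Q' + KK J u) = Q + Q' := by funext v; simp only [Pi.add_apply, Pi.sub_apply]; ring
    have e4 : (Q - KK J u) - (Q' + KK J u) = (Q - Q') - KK (fun x y => 2 * J x y) u := by
      rw [KK2]; funext v; simp only [Pi.add_apply, Pi.sub_apply]; ring
    have e5 : (Q + KK J u) + (Q' + KK J u) = (Q + Q') + KK (fun x y => 2 * J x y) u := by
      rw [KK2]; funext v; simp only [Pi.add_apply, Pi.sub_apply]; ring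
    have e6 : (Q + KK J u) - (Q' + KK J u) = Q - Q' := by funext v; simp only [Pi.add_apply, Pi.sub_apply]; ring
    have e7 : (Q - KK J u) + (Q' - KK J u) = (Q + Q') - KK (fun x y => 2 * J x y) u := by
      rw [KK2]; funext v; simp only [Pi.add_apply, Pi.sub_apply]; ring
    have e8 : (Q - KK J u) - (Q' - KK J u) = Q - Q' := by funext v; simp only [Pi.add_apply, Pi.sub_apply]; ring
    rw [e1, e2, e3, e4, e5, e6, e7, e8]
    have hJ : Real.exp (J u u) * Real.exp (J u u) = Real.exp (2 * J u u) := by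
      rw [← Real.exp_add]; congr 1; ring
    have hq1 : Real.exp (Q u) * Real.exp (-Q' u) = Real.exp ((Q - Q') u) := by
      rw [← Real.exp_add]; congr 1
    have hq2 : Real.exp (-Q u) * Real.exp (Q' u) = Real.exp (-(Q - Q') u) := by
      rw [← Real.exp_add]; congr 1; simp only [Pi.sub_apply]; ring
    have hq3 : Real.exp (Q u) * Real.exp (Q' u) = Real.exp ((Q + Q') u) := by
      rw [← Real.exp_add]; congr 1
    have hq4 : Real.exp (-Q u) * Real.exp (-Q' u) = Real.exp (-(Q + Q') u) := by
      rw [← Real.exp_add]; congr 1; simp only [Pi.add_apply]; ring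
    rw [hJ, hq1, hq2, hq3, hq4]
    congr 1
    · refine Finset.sum_congr rfl fun T hT => ?_
      have hTB := Finset.mem_powerset.1 hT
      have hd : insert u B \ T = insert u (B \ T) := by
        rw [Finset.insert_sdiff_of_notMem _ (fun h => hu (hTB h))]
      have hu' : u ∉ B \ T := fun h => hu (Finset.mem_sdiff.1 h).1
      rw [hd, rec1 hR (B \ T) (fun x y => 2 * J x y) (Q - Q') u hu']
      ring
    · refine Finset.sum_congr rfl fun T hT => ?_
      have hTB := Finset.mem_powerset.1 hT
      have hd : insert u B \ insert u T = B \ T := by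
        ext z
        simp only [Finset.mem_sdiff, Finset.mem_insert]
        constructor
        · rintro ⟨h1 | h1, h2⟩
          · exact absurd (Or.inl h1) h2
          · exact ⟨h1, fun h => h2 (Or.inr h)⟩
        · rintro ⟨h1, h2⟩
          refine ⟨Or.inr h1, ?_⟩
          rintro (h3 | h3)
          · exact hu (h3 ▸ h1)
          · exact h2 h3
      have hu' : u ∉ T := fun h => hu (hTB h)
      rw [hd, rec1 hR T (fun x y => 2 * J x y) (Q + Q') u hu']
      ring

end DS

end MP8622
end

section
set_option autoImplicit false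

open Classical Filter Topology

/-!
# ELF: elementary facts on `log (2 cosh)`
-/

namespace MP8622

namespace DS

namespace ELFM

theorem pos (x : ℝ) : 0 < 2 * Real.cosh x := by
  have := Real.cosh_pos x
  positivity

theorem hasDerivAt_ell (x : ℝ) : HasDerivAt ell (Real.tanh x) x := by
  have h := ((Real.hasDerivAt_cosh x).const_mul 2).log (pos x).ne'
  have e : 2 * Real.sinh x / (2 * Real.cosh x) = Real.tanh x := by
    rw [Real.tanh_eq_sinh_div_cosh, mul_div_mul_left _ _ two_ne_zero]
  rw [e] at h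
  exact h

theorem hasDerivAt_tanh (x : ℝ) : HasDerivAt Real.tanh (1 - Real.tanh x ^ 2) x := by
  have hc := (Real.cosh_pos x).ne'
  have h := (Real.hasDerivAt_sinh x).div (Real.hasDerivAt_cosh x) hc
  have e : (Real.cosh x * Real.cosh x - Real.sinh x * Real.sinh x) / Real.cosh x ^ 2 =
      1 - Real.tanh x ^ 2 := by
    rw [Real.tanh_eq_sinh_div_cosh]
    field_simp
  rw [e] at h
  refine h.congr_of_eventuallyEq (Eventually.of_forall fun y => ?_)
  show Real.tanh y = _
  rw [Real.tanh_eq_sinh_div_cosh]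
  rfl

theorem tmono : StrictMono Real.tanh := by
  refine strictMono_of_hasDerivAt_pos hasDerivAt_tanh fun x => ?_
  have := Real.tanh_sq_lt_one x
  linarith

theorem even (x : ℝ) : ell (-x) = ell x := by
  unfold ell
  rw [Real.cosh_neg]

theorem exp_ell (x : ℝ) : Real.exp (ell x) = 2 * Real.cosh x := by
  unfold ell
  rw [Real.exp_log (pos x)]

theorem two_cosh (x : ℝ) : 2 * Real.cosh x = Real.exp x + Real.exp (-x) := by
  rw [Real.cosh_eq]
  ring

theorem ge_abs (x : ℝ) : |x| ≤ ell x := by
  unfold ell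
  rw [Real.le_log_iff_exp_le (pos x), two_cosh]
  rcases abs_cases x with ⟨h, _⟩ | ⟨h, _⟩ <;> rw [h]
  · linarith [Real.exp_pos (-x)]
  · linarith [Real.exp_pos x]

theorem le_abs (x : ℝ) : ell x ≤ |x| + Real.exp (-2 * |x|) := by
  unfold ell
  rw [Real.log_le_iff_le_exp (pos x), ← Real.cosh_abs, two_cosh, Real.exp_add]
  have h1 := Real.add_one_le_exp (Real.exp (-2 * |x|))
  have h2 : Real.exp |x| * (Real.exp (-2 * |x|) + 1) = Real.exp |x| + Real.exp (-|x|) := by
    rw [mul_add, ← Real.exp_add, mul_one, add_comm]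
    congr 2
    ring
  rw [← h2]
  exact mul_le_mul_of_nonneg_left h1 (Real.exp_pos _).le

theorem lip_aux (x y : ℝ) : ell x ≤ |x - y| + ell y := by
  rw [← Real.exp_le_exp, Real.exp_add, exp_ell, exp_ell, two_cosh, two_cosh, mul_add,
    ← Real.exp_add, ← Real.exp_add]
  have h1 := le_abs_self (x - y)
  have h2 := neg_abs_le (x - y)
  refine add_le_add (Real.exp_le_exp.2 (by linarith)) (Real.exp_le_exp.2 (by linarith))

theorem lip (x y : ℝ) : |ell x - ell y| ≤ |x - y| := by
  rw [abs_le]
  have h1 := lip_aux x y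
  have h2 := lip_aux y x
  rw [abs_sub_comm y x] at h2
  constructor <;> linarith

theorem mono (a b s s' : ℝ) (hab : a ≤ b) (hs : s ≤ s') :
    ell (s + b) - ell (s + a) ≤ ell (s' + b) - ell (s' + a) := by
  have h : ∀ s, HasDerivAt (fun s => ell (s + b) - ell (s + a))
      (Real.tanh (s + b) - Real.tanh (s + a)) s := fun s =>
    ((hasDerivAt_ell (s + b)).comp_add_const s b).sub ((hasDerivAt_ell (s + a)).comp_add_const s a)
  have hm : Monotone (fun s => ell (s + b) - ell (s + a)) := by
    refine monotone_of_deriv_nonneg (fun s => (h s).differentiableAt) fun s => ?_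
    rw [(h s).deriv]
    have := tmono.monotone (show s + a ≤ s + b by linarith)
    linarith
  exact hm hs

theorem mono_nonneg {x y : ℝ} (hx : 0 ≤ x) (hxy : x ≤ y) : ell x ≤ ell y := by
  unfold ell
  refine Real.log_le_log (pos x) ?_
  have : Real.cosh x ≤ Real.cosh y := by
    rw [Real.cosh_le_cosh, abs_of_nonneg hx, abs_of_nonneg (hx.trans hxy)]
    exact hxy
  linarith

theorem dom_aux (a b m s : ℝ) (hab : |a| ≤ b) (hm : 0 ≤ m) (hms : m ≤ s) :
    ell (m + a) - ell a ≤ ell (s + b) - ell b := by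
  have h1 := mono 0 m a b hm ((le_abs_self a).trans hab)
  rw [add_zero, add_zero, add_comm a m, add_comm b m] at h1
  have hb : 0 ≤ b := (abs_nonneg a).trans hab
  have h2 := mono_nonneg (show 0 ≤ m + b by linarith) (show m + b ≤ s + b by linarith)
  linarith

theorem dom (a b m s : ℝ) (hab : |a| ≤ b) (hms : |m| ≤ s) :
    ell (m + a) - ell a ≤ ell (s + b) - ell b := by
  rcases le_total 0 m with hm | hm
  · exact dom_aux a b m s hab hm ((le_abs_self m).trans hms)
  · have h := dom_aux (-a) b (-m) s (by rwa [abs_neg]) (by linarith) ((neg_le_abs m).trans hms)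
    rw [even, show -m + -a = -(m + a) by ring, even] at h
    exact h

end ELFM

/-- ELF -/
theorem specELF : SpecELF :=
  { deriv := ELFM.hasDerivAt_ell
    deriv2 := ELFM.hasDerivAt_tanh
    tmono := ELFM.tmono
    even := ELFM.even
    exp_ell := ELFM.exp_ell
    ge_abs := ELFM.ge_abs
    le_abs := ELFM.le_abs
    lip := ELFM.lip
    mono := ELFM.mono
    dom := ELFM.dom }

end DS

end MP8622
end

section
set_option autoImplicit false

open Classical Filter Topology

/-!
MP_8622f1_pr, block DS: the lower bound (FKG inequality with real fields).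
-/

namespace MP8622

namespace DS

namespace FKCM

variable {V : Type}

theorem chi_single (v : V) (S : Finset V) : chi {v} S = if v ∈ S then -1 else 1 := by
  rw [chi_eq_prod, Finset.prod_singleton]

/-- the field part of the weight -/
noncomputable def fe (Λ : Finset V) (b : V → ℝ) (S : Finset V) : ℝ :=
  ∏ v ∈ Λ, Real.exp (b v * chi {v} S)

theorem fe_pos (Λ : Finset V) (b : V → ℝ) (S : Finset V) : 0 < fe Λ b S :=
  Finset.prod_pos fun _ _ => Real.exp_pos _

theorem fe_mul (Λ : Finset V) (b : V → ℝ) (S T : Finset V) :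
    fe Λ b S * fe Λ b T = fe Λ b (S ∩ T) * fe Λ b (S ∪ T) := by
  unfold fe
  rw [← Finset.prod_mul_distrib, ← Finset.prod_mul_distrib]
  refine Finset.prod_congr rfl fun v _ => ?_
  rw [← Real.exp_add, ← Real.exp_add]
  congr 1
  rw [← mul_add, ← mul_add]
  congr 1
  simp only [chi_single, Finset.mem_inter, Finset.mem_union]
  by_cases h2 : v ∈ S <;> by_cases h3 : v ∈ T <;> simp [h2, h3]

theorem wf_eq (P : Sym2 V → ℝ) (E : Finset (Sym2 V)) (Λ : Finset V) (b : V → ℝ) (S : Finset V) :
    NU.wf P E Λ b S = sw P E S * fe Λ b S := rfl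

theorem wf_nonneg {P : Sym2 V → ℝ} (h1 : ∀ e, P e ≤ 1) (E : Finset (Sym2 V)) (Λ : Finset V)
    (b : V → ℝ) (S : Finset V) : 0 ≤ NU.wf P E Λ b S := by
  rw [wf_eq]
  exact mul_nonneg (sw_nonneg h1 E S) (fe_pos Λ b S).le

theorem wf_mul_le {P : Sym2 V → ℝ} (h0 : ∀ e, 0 ≤ P e) (h1 : ∀ e, P e ≤ 1)
    (E : Finset (Sym2 V)) (Λ : Finset V) (b : V → ℝ) (S T : Finset V) :
    NU.wf P E Λ b S * NU.wf P E Λ b T ≤ NU.wf P E Λ b (S ∩ T) * NU.wf P E Λ b (S ∪ T) := by
  simp only [wf_eq]
  calc sw P E S * fe Λ b S * (sw P E T * fe Λ b T)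
      = (sw P E S * sw P E T) * (fe Λ b S * fe Λ b T) := by ring
    _ ≤ (sw P E (S ∩ T) * sw P E (S ∪ T)) * (fe Λ b S * fe Λ b T) :=
        mul_le_mul_of_nonneg_right (sw_mul_le h0 h1 E S T)
          (mul_nonneg (fe_pos Λ b S).le (fe_pos Λ b T).le)
    _ = _ := by rw [fe_mul]; ring

theorem Zw_pos {P : Sym2 V → ℝ} (h1 : ∀ e, P e ≤ 1) (E : Finset (Sym2 V)) (Λ : Finset V)
    (b : V → ℝ) : 0 < ∑ S ∈ Λ.powerset, NU.wf P E Λ b S := by
  refine Finset.sum_pos' (fun S _ => wf_nonneg h1 E Λ b S)
    ⟨∅, Finset.empty_mem_powerset Λ, ?_⟩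
  rw [wf_eq, sw_empty, one_mul]
  exact fe_pos Λ b ∅

/-- FKG for the weight `w`, decreasing functions of the set of minus spins -/
theorem fkg {w : Finset V → ℝ} (hw : ∀ S, 0 ≤ w S) (hm : ∀ S T, w S * w T ≤ w (S ∩ T) * w (S ∪ T))
    (Λ : Finset V) (g h : Finset V → ℝ) (hg : ∀ S, 0 ≤ g S)
    (hh : ∀ S, 0 ≤ h S) (hga : ∀ S T, S ⊆ T → g T ≤ g S)
    (hha : ∀ S T, S ⊆ T → h T ≤ h S) :
    (∑ S ∈ Λ.powerset, g S * w S) * (∑ S ∈ Λ.powerset, h S * w S) ≤
      (∑ S ∈ Λ.powerset, g S * h S * w S) * ∑ S ∈ Λ.powerset, w S := by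
  have := Finset.four_functions_theorem (f₁ := fun S => g S * w S)
    (f₂ := fun S => h S * w S) (f₃ := fun S => g S * h S * w S)
    (f₄ := fun S => w S) Λ
    (fun S => mul_nonneg (hg S) (hw S))
    (fun S => mul_nonneg (hh S) (hw S))
    (fun S => mul_nonneg (mul_nonneg (hg S) (hh S)) (hw S))
    (fun S => hw S) ?_
    (Finset.Subset.refl Λ.powerset) (Finset.Subset.refl Λ.powerset)
  · rwa [Finset.powerset_infs_powerset_self, Finset.powerset_sups_powerset_self] at this
  · intro S hS T hT
    show g S * w S * (h T * w T) ≤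
      g (S ∩ T) * h (S ∩ T) * w (S ∩ T) * w (S ∪ T)
    have e1 : g S ≤ g (S ∩ T) := hga _ _ Finset.inter_subset_left
    have e2 : h T ≤ h (S ∩ T) := hha _ _ Finset.inter_subset_right
    calc g S * w S * (h T * w T) = (g S * h T) * (w S * w T) := by ring
      _ ≤ (g (S ∩ T) * h (S ∩ T)) * (w (S ∩ T) * w (S ∪ T)) :=
          mul_le_mul (mul_le_mul e1 e2 (hh T) (hg _)) (hm S T)
            (mul_nonneg (hw S) (hw T)) (mul_nonneg (hg _) (hh _))
      _ = _ := by ring

theorem one_add_chi_nonneg (v : V) (S : Finset V) : 0 ≤ 1 + chi {v} S := by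
  rw [chi_single]; split_ifs <;> norm_num

theorem one_add_chi_anti (v : V) {S T : Finset V} (hST : S ⊆ T) :
    1 + chi {v} T ≤ 1 + chi {v} S := by
  rw [chi_single, chi_single]
  by_cases h2 : v ∈ S
  · rw [if_pos h2, if_pos (hST h2)]
  · rw [if_neg h2]; split_ifs <;> norm_num

end FKCM

open FKCM in
theorem specFKC : SpecFKC := by
  intro V P E Λ b x y h0 h1 _ _
  have hZ : 0 < ∑ S ∈ Λ.powerset, NU.wf P E Λ b S := Zw_pos h1 E Λ b
  unfold cvf NU.mf
  set Z := ∑ S ∈ Λ.powerset, NU.wf P E Λ b S with hZd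
  set X := ∑ S ∈ Λ.powerset, chi {x} S * NU.wf P E Λ b S with hX
  set Y := ∑ S ∈ Λ.powerset, chi {y} S * NU.wf P E Λ b S with hY
  set W := ∑ S ∈ Λ.powerset, chi {x} S * chi {y} S * NU.wf P E Λ b S with hW
  have key := fkg (w := fun S => NU.wf P E Λ b S) (wf_nonneg h1 E Λ b) (wf_mul_le h0 h1 E Λ b) Λ
    (fun S => 1 + chi {x} S) (fun S => 1 + chi {y} S) (one_add_chi_nonneg x)
    (one_add_chi_nonneg y) (fun S T h => one_add_chi_anti x h) (fun S T h => one_add_chi_anti y h)
  have k1 : ∑ S ∈ Λ.powerset, (1 + chi {x} S) * NU.wf P E Λ b S = Z + X := by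
    rw [hZd, hX, ← Finset.sum_add_distrib]
    exact Finset.sum_congr rfl fun S _ => by ring
  have k2 : ∑ S ∈ Λ.powerset, (1 + chi {y} S) * NU.wf P E Λ b S = Z + Y := by
    rw [hZd, hY, ← Finset.sum_add_distrib]
    exact Finset.sum_congr rfl fun S _ => by ring
  have k3 : ∑ S ∈ Λ.powerset, (1 + chi {x} S) * (1 + chi {y} S) * NU.wf P E Λ b S =
      Z + X + Y + W := by
    rw [hZd, hX, hY, hW, ← Finset.sum_add_distrib, ← Finset.sum_add_distrib,
      ← Finset.sum_add_distrib]
    exact Finset.sum_congr rfl fun S _ => by ring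
  have key' : (Z + X) * (Z + Y) ≤ (Z + X + Y + W) * Z := by
    simp only [k1, k2, k3] at key
    exact key
  have hfin : X * Y ≤ W * Z := by nlinarith [key']
  rw [sub_nonneg, div_mul_div_comm, div_le_div_iff₀ (mul_pos hZ hZ) hZ]
  calc X * Y * Z ≤ W * Z * Z := mul_le_mul_of_nonneg_right hfin hZ.le
    _ = W * (Z * Z) := by ring

end DS

end MP8622
end

section
set_option autoImplicit false

open Classical Filter Topology

namespace MP8622

namespace DS

namespace GKMM

/-- partition function of a one point set -/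
theorem ZZ_single {V : Type} (J : V → V → ℝ) (R : V → ℝ) (v : V) :
    ZZ {v} J R = Real.exp (J v v) * (2 * Real.cosh (R v)) := by
  have h0 : ({v} : Finset V).powerset = {∅, {v}} := by
    ext S
    simp only [Finset.mem_powerset, Finset.subset_singleton_iff, Finset.mem_insert,
      Finset.mem_singleton]
  have hne : (∅ : Finset V) ≠ {v} := (Finset.singleton_ne_empty v).symm
  unfold ZZ
  rw [h0, Finset.sum_pair hne]
  have e1 : En {v} J R ∅ = J v v + R v := by
    unfold En sp
    simp
  have e2 : En {v} J R {v} = J v v - R v := by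
    unfold En sp
    simp
    ring
  rw [e1, e2, Real.exp_add, sub_eq_add_neg, Real.exp_add, Real.cosh_eq]
  ring

theorem ZZ_single_lt {V : Type} (J : V → V → ℝ) (R R' : V → ℝ) (v : V) (h : |R v| < R' v) :
    ZZ {v} J R < ZZ {v} J R' := by
  rw [ZZ_single, ZZ_single]
  have h1 : Real.cosh (R v) < Real.cosh (R' v) := by
    rw [Real.cosh_lt_cosh]
    exact h.trans_le (le_abs_self _)
  have h2 := Real.exp_pos (J v v)
  exact mul_lt_mul_of_pos_left (by linarith) h2

end GKMM

open GKMM in
theorem specGKM (hD : SpecDUP) (hM : SpecMON) : SpecGKM := by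
  intro V B J K M P hJ hK hMP
  have hJ2 : ∀ x y, 0 ≤ (fun x y => 2 * J x y) x y := fun x y => by
    have := hJ x y
    simp only
    linarith
  have hPp : ∀ x ∈ B, 0 ≤ P x + M x := fun x hx => by
    have := neg_abs_le (M x)
    have := hMP x hx
    linarith
  have hPm : ∀ x ∈ B, 0 ≤ P x - M x := fun x hx => by
    have := le_abs_self (M x)
    have := hMP x hx
    linarith
  -- monotonicity of the two kinds of factors
  have mA : ∀ (c : ℝ), 0 ≤ c → ∀ T ⊆ B, ZZ T (fun x y => 2 * J x y) (P + M - c • K) ≤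
      ZZ T (fun x y => 2 * J x y) (P + M + c • K) := by
    intro c hc T hT
    refine hM V T _ _ _ hJ2 fun x hx => ?_
    have h1 := hPp x (hT hx)
    have h2 := mul_nonneg hc (hK x (hT hx))
    simp only [Pi.add_apply, Pi.sub_apply, Pi.smul_apply, smul_eq_mul]
    rw [abs_le]
    constructor <;> linarith
  have mB : ∀ (c : ℝ), 0 ≤ c → ∀ T ⊆ B, ZZ T (fun x y => 2 * J x y) (P - M - c • K) ≤
      ZZ T (fun x y => 2 * J x y) (P - M + c • K) := by
    intro c hc T hT
    refine hM V T _ _ _ hJ2 fun x hx => ?_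
    have h1 := hPm x (hT hx)
    have h2 := mul_nonneg hc (hK x (hT hx))
    simp only [Pi.add_apply, Pi.sub_apply, Pi.smul_apply, smul_eq_mul]
    rw [abs_le]
    constructor <;> linarith
  have d1 : ZZ B J (P + K) * ZZ B J (M - K) = ∑ T ∈ B.powerset,
      ZZ T (fun x y => 2 * J x y) (P + M) * ZZ (B \ T) (fun x y => 2 * J x y) (P - M + (2 : ℝ) • K) := by
    rw [hD V B J (P + K) (M - K)]
    have e1 : P + K + (M - K) = P + M := by abel
    have e2 : P + K - (M - K) = P - M + (2 : ℝ) • K := by
      funext x; simp only [Pi.add_apply, Pi.sub_apply, Pi.smul_apply, smul_eq_mul]; ring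
    rw [e1, e2]
  have d2 : ZZ B J (P - K) * ZZ B J (M + K) = ∑ T ∈ B.powerset,
      ZZ T (fun x y => 2 * J x y) (P + M) * ZZ (B \ T) (fun x y => 2 * J x y) (P - M - (2 : ℝ) • K) := by
    rw [hD V B J (P - K) (M + K)]
    have e1 : P - K + (M + K) = P + M := by abel
    have e2 : P - K - (M + K) = P - M - (2 : ℝ) • K := by
      funext x; simp only [Pi.add_apply, Pi.sub_apply, Pi.smul_apply, smul_eq_mul]; ring
    rw [e1, e2]
  have d3 : ZZ B J (P + K) * ZZ B J (M + K) = ∑ T ∈ B.powerset,
      ZZ T (fun x y => 2 * J x y) (P + M + (2 : ℝ) • K) * ZZ (B \ T) (fun x y => 2 * J x y) (P - M) := by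
    rw [hD V B J (P + K) (M + K)]
    have e1 : P + K - (M + K) = P - M := by abel
    have e2 : P + K + (M + K) = P + M + (2 : ℝ) • K := by
      funext x; simp only [Pi.add_apply, Pi.smul_apply, smul_eq_mul]; ring
    rw [e1, e2]
  have d4 : ZZ B J (P - K) * ZZ B J (M - K) = ∑ T ∈ B.powerset,
      ZZ T (fun x y => 2 * J x y) (P + M - (2 : ℝ) • K) * ZZ (B \ T) (fun x y => 2 * J x y) (P - M) := by
    rw [hD V B J (P - K) (M - K)]
    have e1 : P - K - (M - K) = P - M := by abel
    have e2 : P - K + (M - K) = P + M - (2 : ℝ) • K := by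
      funext x; simp only [Pi.add_apply, Pi.sub_apply, Pi.smul_apply, smul_eq_mul]; ring
    rw [e1, e2]
  refine ⟨?_, ?_, ?_, ?_, ?_⟩
  · rw [d1, d2]
    exact Finset.sum_le_sum fun T hT => mul_le_mul_of_nonneg_left
      (mB 2 (by norm_num) _ Finset.sdiff_subset) (ZZ_pos _ _ _).le
  · rw [d3, d4]
    exact Finset.sum_le_sum fun T hT => mul_le_mul_of_nonneg_right
      (mA 2 (by norm_num) _ (Finset.mem_powerset.1 hT)) (ZZ_pos _ _ _).le
  · rintro ⟨v, hv, h1, h2⟩
    rw [d1, d2]
    refine Finset.sum_lt_sum (fun T hT => mul_le_mul_of_nonneg_left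
      (mB 2 (by norm_num) _ Finset.sdiff_subset) (ZZ_pos _ _ _).le)
      ⟨B.erase v, Finset.mem_powerset.2 (Finset.erase_subset v B), ?_⟩
    have hs : B \ B.erase v = {v} := by
      ext z
      simp only [Finset.mem_sdiff, Finset.mem_erase, Finset.mem_singleton, not_and]
      constructor
      · rintro ⟨h3, h4⟩
        by_contra h5
        exact h4 h5 h3
      · rintro rfl
        exact ⟨hv, fun h => absurd rfl h⟩
    rw [hs]
    refine mul_lt_mul_of_pos_left (ZZ_single_lt _ _ _ v ?_) (ZZ_pos _ _ _)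
    simp only [Pi.add_apply, Pi.sub_apply, Pi.smul_apply, smul_eq_mul]
    rw [abs_lt]
    constructor <;> linarith
  · rintro ⟨v, hv, h1, h2⟩
    rw [d3, d4]
    refine Finset.sum_lt_sum (fun T hT => mul_le_mul_of_nonneg_right
      (mA 2 (by norm_num) _ (Finset.mem_powerset.1 hT)) (ZZ_pos _ _ _).le)
      ⟨{v}, Finset.mem_powerset.2 (Finset.singleton_subset_iff.2 hv), ?_⟩
    refine mul_lt_mul_of_pos_right (ZZ_single_lt _ _ _ v ?_) (ZZ_pos _ _ _)
    simp only [Pi.add_apply, Pi.sub_apply, Pi.smul_apply, smul_eq_mul]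
    rw [abs_lt]
    constructor <;> linarith
  · have f1 := hD V B J (P + K) M
    have f2 := hD V B J (P - K) M
    have f3 := hD V B J P (M + K)
    have f4 := hD V B J P (M - K)
    have g1 : P + K + M = P + M + (1 : ℝ) • K := by rw [one_smul]; abel
    have g2 : P + K - M = P - M + (1 : ℝ) • K := by rw [one_smul]; abel
    have g3 : P - K + M = P + M - (1 : ℝ) • K := by rw [one_smul]; abel
    have g4 : P - K - M = P - M - (1 : ℝ) • K := by rw [one_smul]; abel
    have g5 : P + (M + K) = P + M + (1 : ℝ) • K := by rw [one_smul]; abel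
    have g6 : P - (M + K) = P - M - (1 : ℝ) • K := by rw [one_smul]; abel
    have g7 : P + (M - K) = P + M - (1 : ℝ) • K := by rw [one_smul]; abel
    have g8 : P - (M - K) = P - M + (1 : ℝ) • K := by rw [one_smul]; abel
    rw [g1, g2] at f1
    rw [g3, g4] at f2
    rw [g5, g6] at f3
    rw [g7, g8] at f4
    have hd : (ZZ B J (P + K) + ZZ B J (P - K)) * ZZ B J M -
        (ZZ B J (M + K) + ZZ B J (M - K)) * ZZ B J P = ∑ T ∈ B.powerset,
        (ZZ T (fun x y => 2 * J x y) (P + M + (1 : ℝ) • K) -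
          ZZ T (fun x y => 2 * J x y) (P + M - (1 : ℝ) • K)) *
        (ZZ (B \ T) (fun x y => 2 * J x y) (P - M + (1 : ℝ) • K) -
          ZZ (B \ T) (fun x y => 2 * J x y) (P - M - (1 : ℝ) • K)) := by
      have : (ZZ B J (P + K) + ZZ B J (P - K)) * ZZ B J M -
        (ZZ B J (M + K) + ZZ B J (M - K)) * ZZ B J P =
        ZZ B J (P + K) * ZZ B J M + ZZ B J (P - K) * ZZ B J M - ZZ B J P * ZZ B J (M + K) -
        ZZ B J P * ZZ B J (M - K) := by ring
      rw [this, f1, f2, f3, f4, ← Finset.sum_add_distrib, ← Finset.sum_sub_distrib,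
        ← Finset.sum_sub_distrib]
      exact Finset.sum_congr rfl fun T _ => by ring
    have hnn : 0 ≤ (ZZ B J (P + K) + ZZ B J (P - K)) * ZZ B J M -
        (ZZ B J (M + K) + ZZ B J (M - K)) * ZZ B J P := by
      rw [hd]
      refine Finset.sum_nonneg fun T hT => mul_nonneg ?_ ?_
      · exact sub_nonneg.2 (mA 1 zero_le_one _ (Finset.mem_powerset.1 hT))
      · exact sub_nonneg.2 (mB 1 zero_le_one _ Finset.sdiff_subset)
    linarith

end DS

end MP8622
end

section
set_option autoImplicit false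

open Classical Filter Topology

namespace MP8622

namespace DS

namespace LRCM

theorem log_two (q a b : ℝ) (ha : 0 < a) (hb : 0 < b) :
    Real.log (Real.exp q * a + Real.exp (-q) * b) =
      ell (q + (Real.log a - Real.log b) / 2) + (Real.log a + Real.log b) / 2 := by
  have h : Real.exp q * a + Real.exp (-q) * b =
      (2 * Real.cosh (q + (Real.log a - Real.log b) / 2)) *
        Real.exp ((Real.log a + Real.log b) / 2) := by
    rw [Real.cosh_eq]
    have e1 : 2 * ((Real.exp (q + (Real.log a - Real.log b) / 2) +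
        Real.exp (-(q + (Real.log a - Real.log b) / 2))) / 2) *
        Real.exp ((Real.log a + Real.log b) / 2) =
        Real.exp (q + (Real.log a - Real.log b) / 2 + (Real.log a + Real.log b) / 2) +
        Real.exp (-(q + (Real.log a - Real.log b) / 2) + (Real.log a + Real.log b) / 2) := by
      rw [Real.exp_add (q + (Real.log a - Real.log b) / 2) ((Real.log a + Real.log b) / 2),
        Real.exp_add (-(q + (Real.log a - Real.log b) / 2)) ((Real.log a + Real.log b) / 2)]
      ring
    rw [e1, show q + (Real.log a - Real.log b) / 2 + (Real.log a + Real.log b) / 2 =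
      q + Real.log a by ring, show -(q + (Real.log a - Real.log b) / 2) +
      (Real.log a + Real.log b) / 2 = -q + Real.log b by ring, Real.exp_add, Real.exp_add,
      Real.exp_log ha, Real.exp_log hb]
  have hc : 0 < 2 * Real.cosh (q + (Real.log a - Real.log b) / 2) := by
    have := Real.cosh_pos (q + (Real.log a - Real.log b) / 2)
    positivity
  rw [h, Real.log_mul hc.ne' (Real.exp_pos _).ne', Real.log_exp]
  rfl

theorem Su_one {V : Type} (B : Finset V) (J : V → V → ℝ) (Q : V → ℝ) :
    Su B J Q (fun _ => 1) = ZZ B J Q := by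
  unfold Su ZZ
  exact Finset.sum_congr rfl fun _ _ => one_mul _

end LRCM

theorem specLRC (hREC : SpecREC) : SpecLRC := by
  intro V B J Q u hu
  have h := hREC V B J Q u (fun _ => 1) hu
  rw [LRCM.Su_one, LRCM.Su_one, LRCM.Su_one] at h
  unfold LL
  rw [h, Real.log_mul (Real.exp_pos _).ne', Real.log_exp, LRCM.log_two _ _ _ (ZZ_pos _ _ _)
    (ZZ_pos _ _ _)]
  · unfold cc kk LL
    ring
  · have h1 := ZZ_pos (B.erase u) J (Q + KK J u)
    have h2 := ZZ_pos (B.erase u) J (Q - KK J u)
    have h3 := Real.exp_pos (Q u)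
    have h4 := Real.exp_pos (-Q u)
    positivity

end DS

end MP8622
end

section
set_option autoImplicit false

open Classical Filter Topology

/-!
# MP_8622f1_pr, DS block, module MON: the partition function is monotone in the modulus of the
fields (helper62)
-/

namespace MP8622

namespace DS

namespace MONM

theorem exp_sp {V : Type} (S : Finset V) (x : V) (q : ℝ) :
    Real.exp (q * sp S x) = sp S x * Real.sinh q + Real.cosh q := by
  unfold sp
  split_ifs
  · rw [mul_neg, mul_one, Real.sinh_eq, Real.cosh_eq]; ring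
  · rw [mul_one, Real.sinh_eq, Real.cosh_eq]; ring

theorem exp_En {V : Type} (B : Finset V) (J : V → V → ℝ) (Q : V → ℝ) (S : Finset V) :
    Real.exp (En B J Q S) = Real.exp (En B J 0 S) *
      ∏ x ∈ B, (sp S x * Real.sinh (Q x) + Real.cosh (Q x)) := by
  have h : En B J Q S = En B J 0 S + ∑ x ∈ B, Q x * sp S x := by
    unfold En; simp
  rw [h, Real.exp_add, Real.exp_sum]
  congr 1
  exact Finset.prod_congr rfl fun x _ => exp_sp S x (Q x)

theorem ZZ_eq {V : Type} (B : Finset V) (J : V → V → ℝ) (Q : V → ℝ) :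
    ZZ B J Q = ∑ A ∈ B.powerset,
      (∑ S ∈ B.powerset, (∏ x ∈ A, sp S x) * Real.exp (En B J 0 S)) *
        ((∏ x ∈ A, Real.sinh (Q x)) * ∏ x ∈ B \ A, Real.cosh (Q x)) := by
  unfold ZZ
  have h : ∀ S ∈ B.powerset, Real.exp (En B J Q S) = ∑ A ∈ B.powerset,
      ((∏ x ∈ A, sp S x) * Real.exp (En B J 0 S)) *
        ((∏ x ∈ A, Real.sinh (Q x)) * ∏ x ∈ B \ A, Real.cosh (Q x)) := by
    intro S _
    rw [exp_En, Finset.prod_add, Finset.mul_sum]
    refine Finset.sum_congr rfl fun A _ => ?_
    rw [Finset.prod_mul_distrib]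
    ring
  rw [Finset.sum_congr rfl h, Finset.sum_comm]
  refine Finset.sum_congr rfl fun A _ => ?_
  rw [Finset.sum_mul]

theorem cosh_le {q q' : ℝ} (h : |q'| ≤ q) : Real.cosh q' ≤ Real.cosh q := by
  rw [Real.cosh_le_cosh]
  exact h.trans (le_abs_self q)

theorem abs_sinh_le {q q' : ℝ} (h : |q'| ≤ q) : |Real.sinh q'| ≤ Real.sinh q := by
  rw [Real.abs_sinh]
  exact Real.sinh_le_sinh.mpr h

end MONM

open MONM in
theorem specMON (hNAP : SpecNAP) : SpecMON := by
  intro V B J Q Q' hJ hQ
  rw [ZZ_eq B J Q', ZZ_eq B J Q]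
  refine Finset.sum_le_sum fun A hA => ?_
  have hAB : A ⊆ B := Finset.mem_powerset.mp hA
  refine mul_le_mul_of_nonneg_left ?_ (hNAP V B A J hJ hAB)
  have h1 : |∏ x ∈ A, Real.sinh (Q' x)| ≤ ∏ x ∈ A, Real.sinh (Q x) := by
    rw [Finset.abs_prod]
    exact Finset.prod_le_prod (fun x _ => abs_nonneg _)
      (fun x hx => abs_sinh_le (hQ x (hAB hx)))
  have h2 : ∏ x ∈ B \ A, Real.cosh (Q' x) ≤ ∏ x ∈ B \ A, Real.cosh (Q x) :=
    Finset.prod_le_prod (fun x _ => (Real.cosh_pos _).le)
      (fun x hx => cosh_le (hQ x (Finset.mem_sdiff.mp hx).1))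
  have h0 : 0 ≤ ∏ x ∈ B \ A, Real.cosh (Q' x) :=
    Finset.prod_nonneg fun x _ => (Real.cosh_pos _).le
  exact mul_le_mul ((le_abs_self _).trans h1) h2 h0 ((abs_nonneg _).trans h1)

end DS

end MP8622
end

section
set_option autoImplicit false

open Classical Filter Topology

/-!
# MP_8622f1_pr, block DS: Griffiths' first inequality (NAP)
-/

namespace MP8622

namespace DS

namespace NAPM

variable {V : Type}

/-- all moments of `F` are nonnegative -/
def Good (B : Finset V) (F : Finset V → ℝ) : Prop :=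
  ∀ n : V → ℕ, 0 ≤ ∑ S ∈ B.powerset, (∏ x ∈ B, sp S x ^ n x) * F S

theorem good_one (B : Finset V) : Good B (fun _ => 1) := by
  intro n
  have h1 : ∑ S ∈ B.powerset, (∏ x ∈ B, sp S x ^ n x) * (1 : ℝ) =
      ∏ x ∈ B, ((-1 : ℝ) ^ n x + 1) := by
    rw [Finset.prod_add]
    apply Finset.sum_congr rfl
    intro S hS
    rw [mul_one, Finset.prod_const_one, mul_one]
    have hSB := Finset.mem_powerset.1 hS
    rw [← Finset.prod_sdiff hSB]
    have e1 : ∏ x ∈ B \ S, sp S x ^ n x = 1 := by
      apply Finset.prod_eq_one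
      intro x hx
      unfold sp
      rw [if_neg (Finset.mem_sdiff.1 hx).2, one_pow]
    have e2 : ∏ x ∈ S, sp S x ^ n x = ∏ x ∈ S, (-1 : ℝ) ^ n x := by
      apply Finset.prod_congr rfl
      intro x hx
      unfold sp
      rw [if_pos hx]
    rw [e1, e2, one_mul]
  rw [h1]
  apply Finset.prod_nonneg
  intro x _
  rcases neg_one_pow_eq_or ℝ (n x) with h | h <;> rw [h] <;> norm_num

theorem raise {B : Finset V} {x : V} (hx : x ∈ B) (n : V → ℕ) (S : Finset V) :
    ∏ z ∈ B, sp S z ^ (n z + if z = x then 1 else 0) = (∏ z ∈ B, sp S z ^ n z) * sp S x := by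
  simp only [pow_add, Finset.prod_mul_distrib]
  congr 1
  rw [Finset.prod_eq_single x]
  · rw [if_pos rfl, pow_one]
  · intro b _ hb
    rw [if_neg hb, pow_zero]
  · intro h
    exact absurd hx h

theorem good_step {B : Finset V} {F : Finset V → ℝ} (hF : Good B F) {a b : ℝ} (ha : 0 ≤ a)
    (hb : 0 ≤ b) {x y : V} (hx : x ∈ B) (hy : y ∈ B) :
    Good B (fun S => (a + b * (sp S x * sp S y)) * F S) := by
  intro n
  have h1 := hF n
  have h2 := hF (fun z => (n z + if z = x then 1 else 0) + if z = y then 1 else 0)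
  have h3 : ∀ S, ∏ z ∈ B, sp S z ^ ((n z + if z = x then 1 else 0) + if z = y then 1 else 0) =
      (∏ z ∈ B, sp S z ^ n z) * sp S x * sp S y := by
    intro S
    rw [raise hy (fun z => n z + if z = x then 1 else 0), raise hx]
  simp only [h3] at h2
  have h4 : ∑ S ∈ B.powerset, (∏ x ∈ B, sp S x ^ n x) * ((a + b * (sp S x * sp S y)) * F S) =
      a * (∑ S ∈ B.powerset, (∏ x ∈ B, sp S x ^ n x) * F S) +
      b * (∑ S ∈ B.powerset, (∏ z ∈ B, sp S z ^ n z) * sp S x * sp S y * F S) := by
    rw [Finset.mul_sum, Finset.mul_sum, ← Finset.sum_add_distrib]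
    apply Finset.sum_congr rfl
    intro S _
    ring
  rw [h4]
  positivity

theorem good_prod {B : Finset V} (a b : V × V → ℝ) (ha : ∀ p, 0 ≤ a p) (hb : ∀ p, 0 ≤ b p)
    (T : Finset (V × V)) (hT : ∀ p ∈ T, p.1 ∈ B ∧ p.2 ∈ B) :
    Good B (fun S => ∏ p ∈ T, (a p + b p * (sp S p.1 * sp S p.2))) := by
  induction T using Finset.induction_on with
  | empty => simpa using good_one B
  | insert p T hp ih =>
    have h1 := good_step (ih fun q hq => hT q (Finset.mem_insert_of_mem hq)) (ha p) (hb p)
      (hT p (Finset.mem_insert_self _ _)).1 (hT p (Finset.mem_insert_self _ _)).2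
    simp only [Finset.prod_insert hp]
    exact h1

theorem exp_eq (c : ℝ) (S : Finset V) (x y : V) :
    Real.exp (c * (sp S x * sp S y)) = Real.cosh c + Real.sinh c * (sp S x * sp S y) := by
  have h : sp S x * sp S y = 1 ∨ sp S x * sp S y = -1 := by
    unfold sp
    split_ifs <;> norm_num
  rcases h with h | h <;> rw [h]
  · rw [mul_one, mul_one, Real.cosh_add_sinh]
  · rw [mul_neg_one, mul_neg_one, ← Real.cosh_sub_sinh]
    ring

end NAPM

open NAPM in
/-- NAP -/
theorem specNAP : SpecNAP := by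
  intro V B A J hJ hAB
  have h1 := good_prod (B := B) (fun p => Real.cosh (J p.1 p.2)) (fun p => Real.sinh (J p.1 p.2))
    (fun p => (Real.cosh_pos _).le) (fun p => Real.sinh_nonneg_iff.2 (hJ _ _)) (B ×ˢ B)
    (fun p hp => Finset.mem_product.1 hp) (fun x => if x ∈ A then 1 else 0)
  refine h1.trans (le_of_eq ?_)
  apply Finset.sum_congr rfl
  intro S _
  congr 1
  · symm
    have e1 : ∏ x ∈ A, sp S x = ∏ x ∈ A, sp S x ^ (if x ∈ A then 1 else 0) := by
      apply Finset.prod_congr rfl
      intro x hx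
      rw [if_pos hx, pow_one]
    rw [e1]
    apply Finset.prod_subset hAB
    intro x _ hx
    rw [if_neg hx, pow_zero]
  · unfold En
    have e0 : ∑ x ∈ B, (0 : V → ℝ) x * sp S x = 0 := by
      apply Finset.sum_eq_zero
      intro x _
      rw [Pi.zero_apply, zero_mul]
    rw [e0, add_zero, ← Finset.sum_product', Real.exp_sum]
    apply Finset.prod_congr rfl
    intro p _
    rw [exp_eq]

end DS

end MP8622
end

section
set_option autoImplicit false

open Classical Filter Topology

/-!
# MP_8622f1_pr, block DS: the fields at one vertex (ONE)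
-/

namespace MP8622

namespace DS

/-- ONE -/
theorem specONE (hPRA : SpecPRA) (hPRO : SpecPRO) (hCAL : SpecCAL) : SpecONE := by
  intro V B J h M P u hu hJ hK hMP hI hneg
  have hok := hPRO V B J h M P u hu hJ hK
    (fun x hx => hMP x (Finset.mem_of_mem_erase hx)) hI
  rw [hPRA V B J h M P u hu] at hneg ⊢
  obtain ⟨η, hη⟩ := hCAL _ hok (M u) (P u) (h u) (hMP u hu) hneg
  refine ⟨η, ?_⟩
  have hne : ∀ (f : V → ℝ) (c : ℝ), ∀ x ∈ B.erase u, Function.update f u c x = f x := by
    intro f c x hx
    exact Function.update_of_ne (Finset.ne_of_mem_erase hx) _ _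
  rw [hPRA V B J _ _ _ u hu, Function.update_self, Function.update_self, Function.update_self,
    par_congr (hne h η) (hne M 0) (hne P 0)]
  exact hη

end DS

end MP8622
end

section
set_option autoImplicit false

open Classical Filter Topology

/-!
# MP_8622f1_pr, the Ding-Song-Sun inequality: module PRA
-/

namespace MP8622

namespace DS

theorem specPRA (hLRC : SpecLRC) : SpecPRA := by
  intro V B J h M P u hu
  unfold EE Ph par
  rw [hLRC V B J (M + h) u hu, hLRC V B J (M - h) u hu, hLRC V B J M u hu,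
    hLRC V B J (P + h) u hu, hLRC V B J (P - h) u hu, hLRC V B J P u hu]
  simp only [Pi.add_apply, Pi.sub_apply]
  ring

end DS

end MP8622
end

section
set_option autoImplicit false

open Classical Filter Topology

/-!
# MP_8622f1_pr, block DS: the parameters are admissible (PRO; helper1)
-/

namespace MP8622

namespace DS

namespace PROM

variable {V : Type}

theorem sp_compl {B S : Finset V} {x : V} (hx : x ∈ B) : sp (B \ S) x = - sp S x := by
  unfold sp
  by_cases h : x ∈ S
  · simp [h]
  · simp [h, hx]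

theorem En_neg (B : Finset V) (J : V → V → ℝ) (Q : V → ℝ) (S : Finset V) :
    En B J (-Q) (B \ S) = En B J Q S := by
  unfold En
  congr 1
  · refine Finset.sum_congr rfl fun x hx => Finset.sum_congr rfl fun y hy => ?_
    rw [sp_compl hx, sp_compl hy]
    ring
  · refine Finset.sum_congr rfl fun x hx => ?_
    rw [sp_compl hx, Pi.neg_apply]
    ring

theorem ZZ_neg (B : Finset V) (J : V → V → ℝ) (Q : V → ℝ) : ZZ B J (-Q) = ZZ B J Q := by
  unfold ZZ
  refine Finset.sum_nbij' (fun S => B \ S) (fun S => B \ S) ?_ ?_ ?_ ?_ ?_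
  · intro S _
    exact Finset.mem_powerset.2 Finset.sdiff_subset
  · intro S _
    exact Finset.mem_powerset.2 Finset.sdiff_subset
  · intro S hS
    exact Finset.sdiff_sdiff_eq_self (Finset.mem_powerset.1 hS)
  · intro S hS
    exact Finset.sdiff_sdiff_eq_self (Finset.mem_powerset.1 hS)
  · intro S hS
    have h := En_neg B J Q (B \ S)
    rw [Finset.sdiff_sdiff_eq_self (Finset.mem_powerset.1 hS)] at h
    rw [h]

theorem LL_neg (B : Finset V) (J : V → V → ℝ) (Q : V → ℝ) : LL B J (-Q) = LL B J Q := by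
  unfold LL
  rw [ZZ_neg]

theorem cc_neg (B : Finset V) (J : V → V → ℝ) (K Q : V → ℝ) : cc B J K (-Q) = - cc B J K Q := by
  unfold cc
  have e1 : -Q + K = -(Q - K) := by abel
  have e2 : -Q - K = -(Q + K) := by abel
  rw [e1, e2, LL_neg, LL_neg]
  ring

theorem kk_neg (B : Finset V) (J : V → V → ℝ) (K Q : V → ℝ) : kk B J K (-Q) = kk B J K Q := by
  unfold kk
  have e1 : -Q + K = -(Q - K) := by abel
  have e2 : -Q - K = -(Q + K) := by abel
  rw [e1, e2, LL_neg, LL_neg]
  ring

theorem ell_neg (x : ℝ) : ell (-x) = ell x := by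
  unfold ell
  rw [Real.cosh_neg]

theorem ell_add (B : Finset V) (J : V → V → ℝ) (K Q : V → ℝ) :
    ell (cc B J K Q) + kk B J K Q = Real.log (ZZ B J (Q + K) + ZZ B J (Q - K)) := by
  have h1 := ZZ_pos B J (Q + K)
  have h2 := ZZ_pos B J (Q - K)
  have e1 : Real.exp (cc B J K Q + kk B J K Q) = ZZ B J (Q + K) := by
    have : cc B J K Q + kk B J K Q = LL B J (Q + K) := by
      unfold cc kk
      ring
    rw [this, LL, Real.exp_log h1]
  have e2 : Real.exp (-cc B J K Q + kk B J K Q) = ZZ B J (Q - K) := by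
    have : -cc B J K Q + kk B J K Q = LL B J (Q - K) := by
      unfold cc kk
      ring
    rw [this, LL, Real.exp_log h2]
  have hc : 0 < 2 * Real.cosh (cc B J K Q) := by
    have := Real.cosh_pos (cc B J K Q)
    linarith
  rw [← e1, ← e2, Real.exp_add, Real.exp_add, ← add_mul,
    Real.log_mul (by positivity) (Real.exp_pos _).ne', Real.log_exp, ell, Real.cosh_eq]
  congr 2
  ring

theorem log_le {a b c d : ℝ} (ha : 0 < a) (hb : 0 < b) (hc : 0 < c) (hd : 0 < d)
    (h : a * b ≤ c * d) : Real.log a + Real.log b ≤ Real.log c + Real.log d := by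
  rw [← Real.log_mul ha.ne' hb.ne', ← Real.log_mul hc.ne' hd.ne']
  exact Real.log_le_log (mul_pos ha hb) h

theorem log_lt {a b c d : ℝ} (ha : 0 < a) (hb : 0 < b) (hc : 0 < c) (hd : 0 < d)
    (h : a * b < c * d) : Real.log a + Real.log b < Real.log c + Real.log d := by
  rw [← Real.log_mul ha.ne' hb.ne', ← Real.log_mul hc.ne' hd.ne']
  exact Real.log_lt_log (mul_pos ha hb) h

end PROM

open PROM in
theorem specPRO (hGKM : SpecGKM) : SpecPRO := by
  intro V B J h M P u hu hJ hK hMP hI
  set B' := B.erase u with hB'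
  set K := KK J u with hKd
  have hK0 : ∀ x ∈ B', 0 ≤ K x := fun x hx => (hK x hx).le
  have g : Gkm B' J K M P := hGKM V B' J K M P hJ hK0 hMP
  have z1 := ZZ_pos B' J (P - K)
  have z2 := ZZ_pos B' J (P + K)
  have z3 := ZZ_pos B' J (M - K)
  have z4 := ZZ_pos B' J (M + K)
  have z5 := ZZ_pos B' J P
  have z6 := ZZ_pos B' J M
  refine ⟨?_, ?_, ?_, ?_, ?_, ?_⟩
  · -- h1
    show |cc B' J K M| ≤ cc B' J K P
    have h1 := log_le z1 z4 z2 z3 g.i
    have h2 := log_le z1 z3 z2 z4 g.ii
    rw [abs_le]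
    unfold cc LL
    constructor <;> linarith
  · -- h2p
    have h1 := hI h (M + K) (P + K) (fun x hx => by
      have := hMP x hx
      have := hK0 x hx
      simp only [Pi.add_apply]
      rw [abs_le] at *
      constructor <;> linarith [(hMP x hx)])
    have e1 : M + K + h = M + h + K := by abel
    have e2 : M + K - h = M - h + K := by abel
    have e3 : P + K + h = P + h + K := by abel
    have e4 : P + K - h = P - h + K := by abel
    unfold EE at h1
    rw [e1, e2, e3, e4] at h1
    simp only [par]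
    unfold cc kk
    linarith
  · -- h2m
    have h1 := hI h (M - K) (P + K) (fun x hx => by
      have h3 := hMP x hx
      have h4 := hK0 x hx
      simp only [Pi.add_apply, Pi.sub_apply]
      rw [abs_le] at *
      constructor <;> linarith)
    have e1 : M - K + h = M + h - K := by abel
    have e2 : M - K - h = M - h - K := by abel
    have e3 : P + K + h = P + h + K := by abel
    have e4 : P + K - h = P - h + K := by abel
    unfold EE at h1
    rw [e1, e2, e3, e4] at h1
    simp only [par]
    unfold cc kk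
    linarith
  · -- h3
    have hv : Real.log (ZZ B' J (M + K) + ZZ B' J (M - K)) + Real.log (ZZ B' J P) ≤
        Real.log (ZZ B' J (P + K) + ZZ B' J (P - K)) + Real.log (ZZ B' J M) :=
      log_le (by linarith) z5 (by linarith) z6 g.v
    rw [← ell_add, ← ell_add] at hv
    have h1 := hI (h + K) M P hMP
    have h2 := hI (h - K) M P hMP
    have e1 : M + (h + K) = M + h + K := by abel
    have e2 : M - (h + K) = M - h - K := by abel
    have e3 : P + (h + K) = P + h + K := by abel
    have e4 : P - (h + K) = P - h - K := by abel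
    have e5 : M + (h - K) = M + h - K := by abel
    have e6 : M - (h - K) = M - h + K := by abel
    have e7 : P + (h - K) = P + h - K := by abel
    have e8 : P - (h - K) = P - h + K := by abel
    unfold EE at h1 h2
    rw [e1, e2, e3, e4] at h1
    rw [e5, e6, e7, e8] at h2
    simp only [par]
    rw [abs_le]
    have c1 : ∀ Q : V → ℝ, cc B' J K Q = (LL B' J (Q + K) - LL B' J (Q - K)) / 2 := fun _ => rfl
    have c2 : ∀ Q : V → ℝ, kk B' J K Q = (LL B' J (Q + K) + LL B' J (Q - K)) / 2 := fun _ => rfl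
    have l1 : ∀ Q : V → ℝ, Real.log (ZZ B' J Q) = LL B' J Q := fun _ => rfl
    rw [l1, l1] at hv
    rw [c1 (M + h), c1 (M - h), c1 (P + h), c1 (P - h), c2 (M + h), c2 (M - h), c2 (P + h),
      c2 (P - h)]
    constructor <;> linarith
  · -- h4p
    by_cases hex : ∃ v ∈ B', M v < P v
    · left
      obtain ⟨v, hv, hlt⟩ := hex
      have h1 := log_lt z1 z4 z2 z3 (g.si ⟨v, hv, hlt, hK v hv⟩)
      show cc B' J K M < cc B' J K P
      unfold cc LL
      linarith
    · right
      push Not at hex
      have hMPe : ∀ x ∈ B', M x = P x := fun x hx =>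
        le_antisymm ((le_abs_self _).trans (hMP x hx)) (hex x hx)
      intro s η hs
      rw [par_congr (h := h) (h' := h) (M := M) (M' := P) (P := P) (P' := P) (fun _ _ => rfl) hMPe
        (fun _ _ => rfl)]
      simp only [Ph, par]
      exact le_of_eq (by ring)
  · -- h4m
    by_cases hex : ∃ v ∈ B', -M v < P v
    · left
      obtain ⟨v, hv, hlt⟩ := hex
      have h1 := log_lt z1 z3 z2 z4 (g.sii ⟨v, hv, hlt, hK v hv⟩)
      show -cc B' J K M < cc B' J K P
      unfold cc LL
      linarith
    · right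
      push Not at hex
      have hMPe : ∀ x ∈ B', M x = (-P) x := fun x hx => by
        have h1 := hMP x hx
        have h2 := hex x hx
        rw [abs_le] at h1
        rw [Pi.neg_apply]
        linarith [h1.1]
      intro s η hs
      rw [par_congr (h := h) (h' := h) (M := M) (M' := -P) (P := P) (P' := P) (fun _ _ => rfl) hMPe
        (fun _ _ => rfl)]
      have e1 : -P + h = -(P - h) := by abel
      have e2 : -P - h = -(P + h) := by abel
      simp only [Ph, par]
      rw [e1, e2, cc_neg, cc_neg, cc_neg, kk_neg, kk_neg, kk_neg]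
      have f1 : -s + η + -cc B' J K (P - h) = -(s - η + cc B' J K (P - h)) := by ring
      have f2 : -s - η + -cc B' J K (P + h) = -(s + η + cc B' J K (P + h)) := by ring
      have f3 : -s + -cc B' J K P = -(s + cc B' J K P) := by ring
      rw [f1, f2, f3, ell_neg, ell_neg, ell_neg]
      exact le_of_eq (by ring)

end DS

end MP8622
end

section
set_option autoImplicit false

open Classical Filter Topology

/-!
MP_8622f1_pr, block DS: quasi-concavity of `m ↦ ell (m+p) + ell (m+q) - 2 ell (m+r)`.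
-/

namespace MP8622

namespace DS

namespace QCVM

/-- a quadratic polynomial which is nonnegative at the ends of an interval -/
theorem quad {A D C z₁ z₂ z : ℝ} (h1 : 0 < z₁) (h2 : z₁ ≤ z) (h3 : z ≤ z₂)
    (q1 : 0 ≤ A * z₁ ^ 2 + D * z₁ + C) (q2 : 0 ≤ A * z₂ ^ 2 + D * z₂ + C)
    (hD : 0 < A → 0 < C → 0 ≤ D) : 0 ≤ A * z ^ 2 + D * z + C := by
  have hz : 0 < z := lt_of_lt_of_le h1 h2
  rcases le_or_gt A 0 with hA | hA
  · rcases eq_or_lt_of_le (h2.trans h3) with h4 | h4
    · have : z = z₁ := le_antisymm (h4 ▸ h3) h2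
      rw [this]; exact q1
    · have e : (A * z ^ 2 + D * z + C) * (z₂ - z₁) =
          (A * z₁ ^ 2 + D * z₁ + C) * (z₂ - z) + (A * z₂ ^ 2 + D * z₂ + C) * (z - z₁) +
            (-A) * ((z - z₁) * (z₂ - z) * (z₂ - z₁)) := by ring
      have hpos : 0 < z₂ - z₁ := by linarith
      have : 0 ≤ (A * z ^ 2 + D * z + C) * (z₂ - z₁) := by
        rw [e]
        have i1 := mul_nonneg q1 (sub_nonneg.2 h3)
        have i2 := mul_nonneg q2 (sub_nonneg.2 h2)
        have i3 : 0 ≤ (-A) * ((z - z₁) * (z₂ - z) * (z₂ - z₁)) :=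
          mul_nonneg (by linarith) (mul_nonneg (mul_nonneg (sub_nonneg.2 h2) (sub_nonneg.2 h3))
            hpos.le)
        linarith
      exact nonneg_of_mul_nonneg_left this hpos
  · rcases le_or_gt C 0 with hC | hC
    · have e : (A * z ^ 2 + D * z + C) * z₁ =
          (A * z₁ ^ 2 + D * z₁ + C) * z + (z - z₁) * (A * z * z₁ - C) := by ring
      have : 0 ≤ (A * z ^ 2 + D * z + C) * z₁ := by
        rw [e]
        have i1 := mul_nonneg q1 hz.le
        have i2 : 0 ≤ (z - z₁) * (A * z * z₁ - C) := by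
          refine mul_nonneg (sub_nonneg.2 h2) ?_
          have := mul_pos (mul_pos hA hz) h1
          linarith
        linarith
      exact nonneg_of_mul_nonneg_left this h1
    · have hD' := hD hA hC
      have i1 := mul_nonneg hA.le (sq_nonneg z)
      have i2 := mul_nonneg hD' hz.le
      linarith

theorem prod_eq (p q t : ℝ) :
    Real.exp (2 * t) * ((2 * Real.cosh (t + p)) * (2 * Real.cosh (t + q))) =
      Real.exp (p + q) * Real.exp (2 * t) ^ 2 + (Real.exp (p - q) + Real.exp (q - p)) *
        Real.exp (2 * t) + Real.exp (-(p + q)) := by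
  rw [Real.cosh_eq, Real.cosh_eq]
  have h : ∀ x : ℝ, 2 * ((Real.exp x + Real.exp (-x)) / 2) = Real.exp x + Real.exp (-x) :=
    fun x => by ring
  rw [h, h, sq]
  simp only [mul_add, add_mul, ← Real.exp_add]
  have e1 : 2 * t + (t + p + (t + q)) = p + q + (2 * t + 2 * t) := by ring
  have e2 : 2 * t + (-(t + p) + (t + q)) = q - p + 2 * t := by ring
  have e3 : 2 * t + (t + p + -(t + q)) = p - q + 2 * t := by ring
  have e4 : 2 * t + (-(t + p) + -(t + q)) = -(p + q) := by ring
  rw [e1, e2, e3, e4]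
  ring

theorem two_cosh_pos (x : ℝ) : 0 < 2 * Real.cosh x := mul_pos two_pos (Real.cosh_pos x)

theorem exp_comb (p q r t : ℝ) :
    Real.exp (ell (t + p) + ell (t + q) - 2 * ell (t + r)) =
      ((2 * Real.cosh (t + p)) * (2 * Real.cosh (t + q))) /
        ((2 * Real.cosh (t + r)) * (2 * Real.cosh (t + r))) := by
  unfold ell
  rw [two_mul (Real.log _), Real.exp_sub, Real.exp_add, Real.exp_add, Real.exp_log (two_cosh_pos _),
    Real.exp_log (two_cosh_pos _), Real.exp_log (two_cosh_pos _)]

end QCVM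

open QCVM in
theorem specQCV : SpecQCV := by
  intro p q r s m hm
  by_contra hcon
  rw [not_or, not_le, not_le] at hcon
  obtain ⟨hc1, hc2⟩ := hcon
  have hc1' := Real.exp_lt_exp.2 hc1
  have hc2' := Real.exp_lt_exp.2 hc2
  rw [exp_comb, exp_comb] at hc1' hc2'
  set N : ℝ → ℝ := fun t => (2 * Real.cosh (t + p)) * (2 * Real.cosh (t + q)) with hN
  set D : ℝ → ℝ := fun t => (2 * Real.cosh (t + r)) * (2 * Real.cosh (t + r)) with hD
  have hDpos : ∀ t, 0 < D t := fun t => mul_pos (two_cosh_pos _) (two_cosh_pos _)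
  change N m / D m < N s / D s at hc1'
  change N m / D m < N (-s) / D (-s) at hc2'
  set l := min (N s / D s) (N (-s) / D (-s)) with hl
  have hml : N m / D m < l := lt_min hc1' hc2'
  have hls : l ≤ N s / D s := min_le_left _ _
  have hls' : l ≤ N (-s) / D (-s) := min_le_right _ _
  rw [div_lt_iff₀ (hDpos m)] at hml
  rw [le_div_iff₀ (hDpos _)] at hls hls'
  -- the quadratic polynomial
  set a := Real.exp (p + q) with ha
  set a' := Real.exp (-(p + q)) with ha'
  set b := Real.exp (r + r) with hb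
  set b' := Real.exp (-(r + r)) with hb'
  set c := Real.exp (p - q) + Real.exp (q - p) with hcd
  have haa : a * a' = 1 := by rw [ha, ha', ← Real.exp_add, add_neg_cancel, Real.exp_zero]
  have hbb : b * b' = 1 := by rw [hb, hb', ← Real.exp_add, add_neg_cancel, Real.exp_zero]
  have hc : 2 ≤ c := by
    have h1 := Real.add_one_le_exp (p - q)
    have h2 := Real.add_one_le_exp (q - p)
    rw [hcd]; linarith
  have hpoly : ∀ t, Real.exp (2 * t) * (N t - l * D t) =
      (a - l * b) * Real.exp (2 * t) ^ 2 + (c - l * 2) * Real.exp (2 * t) + (a' - l * b') := by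
    intro t
    have e1 := prod_eq p q t
    have e2 := prod_eq r r t
    rw [sub_self, Real.exp_zero] at e2
    have e1' : Real.exp (2 * t) * N t = a * Real.exp (2 * t) ^ 2 + c * Real.exp (2 * t) + a' := e1
    have e2' : Real.exp (2 * t) * D t =
      b * Real.exp (2 * t) ^ 2 + (1 + 1) * Real.exp (2 * t) + b' := e2
    calc Real.exp (2 * t) * (N t - l * D t)
        = Real.exp (2 * t) * N t - l * (Real.exp (2 * t) * D t) := by ring
      _ = _ := by rw [e1', e2']; ring
  have hq : 0 ≤ (a - l * b) * Real.exp (2 * m) ^ 2 + (c - l * 2) * Real.exp (2 * m) +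
      (a' - l * b') := by
    have habs := abs_le.1 hm
    refine quad (z₁ := Real.exp (2 * -s)) (z₂ := Real.exp (2 * s)) (Real.exp_pos _)
      (Real.exp_le_exp.2 (by linarith [habs.1])) (Real.exp_le_exp.2 (by linarith [habs.2])) ?_ ?_ ?_
    · rw [← hpoly]
      exact mul_nonneg (Real.exp_pos _).le (by linarith)
    · rw [← hpoly]
      exact mul_nonneg (Real.exp_pos _).le (by linarith)
    · intro hA hC
      by_contra hneg
      have hl1 : 1 < l := by linarith
      have hbp : 0 < b := Real.exp_pos _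
      have hbp' : 0 < b' := Real.exp_pos _
      have h1 : b < a := by nlinarith
      have h2 : b' < a' := by nlinarith
      have h3 : b * b' < a * a' := mul_lt_mul'' h1 h2 hbp.le hbp'.le
      rw [haa, hbb] at h3
      exact lt_irrefl _ h3
  rw [← hpoly] at hq
  have hpos : 0 ≤ N m - l * D m := nonneg_of_mul_nonneg_right hq (Real.exp_pos _)
  linarith

end DS

end MP8622
end

section
set_option autoImplicit false

open Classical Filter Topology

/-!
# MP_8622f1_pr, DS block, module REC: removing a vertex (helper62)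
-/

namespace MP8622

namespace DS

namespace RECM

/-- the energy on `insert u B` when the spin at `u` is `a` and the others are those of `S` -/
theorem En_insert {V : Type} {B : Finset V} {u : V} (hu : u ∉ B) (J : V → V → ℝ) (Q : V → ℝ)
    (S T : Finset V) (hT : ∀ x ∈ B, sp T x = sp S x) :
    En (insert u B) J Q T = J u u + sp T u * Q u + En B J (Q + fun x => sp T u * KK J u x) S := by
  have huu : sp T u * sp T u = 1 := sp_sq T u
  unfold En
  rw [Finset.sum_insert hu, Finset.sum_insert hu, Finset.sum_insert hu]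
  have h1 : ∑ x ∈ B, ∑ y ∈ insert u B, J x y * (sp T x * sp T y) =
      ∑ x ∈ B, J x u * (sp S x * sp T u) + ∑ x ∈ B, ∑ y ∈ B, J x y * (sp S x * sp S y) := by
    rw [← Finset.sum_add_distrib]
    refine Finset.sum_congr rfl fun x hx => ?_
    rw [Finset.sum_insert hu, hT x hx]
    congr 1
    exact Finset.sum_congr rfl fun y hy => by rw [hT y hy]
  have h2 : ∑ y ∈ B, J u y * (sp T u * sp T y) = ∑ y ∈ B, J u y * (sp T u * sp S y) :=
    Finset.sum_congr rfl fun y hy => by rw [hT y hy]
  have h3 : ∑ x ∈ B, Q x * sp T x = ∑ x ∈ B, Q x * sp S x :=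
    Finset.sum_congr rfl fun y hy => by rw [hT y hy]
  have h4 : ∑ x ∈ B, (Q + fun x => sp T u * KK J u x) x * sp S x =
      ∑ x ∈ B, Q x * sp S x + (∑ y ∈ B, J u y * (sp T u * sp S y) +
        ∑ x ∈ B, J x u * (sp S x * sp T u)) := by
    rw [← Finset.sum_add_distrib, ← Finset.sum_add_distrib]
    refine Finset.sum_congr rfl fun x _ => ?_
    rw [Pi.add_apply]
    unfold KK
    ring
  rw [h1, h2, h3, h4, huu]
  ring

theorem sp_notMem {V : Type} {S : Finset V} {u : V} (h : u ∉ S) : sp S u = 1 := if_neg h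

theorem sp_mem {V : Type} {S : Finset V} {u : V} (h : u ∈ S) : sp S u = -1 := if_pos h

theorem sp_insert {V : Type} {S : Finset V} {u x : V} (h : x ≠ u) : sp (insert u S) x = sp S x := by
  unfold sp
  simp [h]

end RECM

open RECM in
theorem specREC : SpecREC := by
  intro V B J Q u F hu
  have hB : insert u (B.erase u) = B := Finset.insert_erase hu
  have hnu : u ∉ B.erase u := Finset.notMem_erase u B
  unfold Su
  conv_lhs => rw [← hB]
  rw [Finset.sum_powerset_insert hnu, mul_add]
  congr 1
  · rw [Finset.mul_sum, Finset.mul_sum]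
    refine Finset.sum_congr rfl fun S hS => ?_
    have hS' : S ⊆ B.erase u := Finset.mem_powerset.mp hS
    have hus : u ∉ S := fun h => hnu (hS' h)
    rw [En_insert hnu J Q S S (fun _ _ => rfl), sp_notMem hus]
    have e1 : (Q + fun x => 1 * KK J u x) = Q + KK J u := by
      funext x; simp
    rw [e1, one_mul, Real.exp_add, Real.exp_add]
    ring
  · rw [Finset.mul_sum, Finset.mul_sum]
    refine Finset.sum_congr rfl fun S hS => ?_
    have hS' : S ⊆ B.erase u := Finset.mem_powerset.mp hS
    rw [En_insert hnu J Q S (insert u S) (fun x hx => sp_insert (Finset.ne_of_mem_erase hx)),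
      sp_mem (Finset.mem_insert_self u S)]
    have e1 : (Q + fun x => -1 * KK J u x) = Q - KK J u := by
      funext x; simp [sub_eq_add_neg]
    rw [e1, neg_one_mul, Real.exp_add, Real.exp_add]
    ring

end DS

end MP8622
end

section
set_option autoImplicit false

open Classical Filter Topology

/-!
# SOC: necessary condition of second order
-/

namespace MP8622

namespace DS

theorem specSOC : SpecSOC := by
  intro f f1 x0 c hf h0 hc hneg δ hδ
  have h1 : ∀ᶠ x in 𝓝[≠] x0, slope f1 x0 x < 0 :=
    (hasDerivAt_iff_tendsto_slope.1 hc).eventually_lt_const hneg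
  rw [eventually_nhdsWithin_iff, Metric.eventually_nhds_iff] at h1
  obtain ⟨ε, hε, h1⟩ := h1
  set r := min δ ε / 2 with hr
  have hm : 0 < min δ ε := lt_min hδ hε
  have hr0 : 0 < r := by positivity
  have hrδ : r < δ := by
    have := min_le_left δ ε
    linarith
  have hrε : r < ε := by
    have := min_le_right δ ε
    linarith
  have hsl : ∀ x, |x - x0| < ε → x ≠ x0 → f1 x / (x - x0) < 0 := by
    intro x hx hne
    have := h1 (y := x) (by rwa [Real.dist_eq]) hne
    rwa [slope_def_field, h0, sub_zero] at this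
  have hcont : Continuous f := continuous_iff_continuousAt.2 fun x => (hf x).continuousAt
  constructor
  · refine ⟨x0 + r, by linarith, by linarith, ?_⟩
    obtain ⟨ξ, hξ, hs⟩ := exists_hasDerivAt_eq_slope f f1 (show x0 < x0 + r by linarith)
      hcont.continuousOn fun x _ => hf x
    have h2 := hsl ξ (by rw [abs_lt]; constructor <;> linarith [hξ.1, hξ.2]) hξ.1.ne'
    have h3 : f1 ξ < 0 := by
      by_contra h
      push Not at h
      exact absurd (div_nonneg h (by linarith [hξ.1])) (not_le.2 h2)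
    rw [hs, div_lt_iff₀ (by linarith)] at h3
    linarith
  · refine ⟨x0 - r, by linarith, by linarith, ?_⟩
    obtain ⟨ξ, hξ, hs⟩ := exists_hasDerivAt_eq_slope f f1 (show x0 - r < x0 by linarith)
      hcont.continuousOn fun x _ => hf x
    have h2 := hsl ξ (by rw [abs_lt]; constructor <;> linarith [hξ.1, hξ.2]) hξ.2.ne
    have h3 : 0 < f1 ξ := by
      by_contra h
      push Not at h
      exact absurd (div_nonneg_of_nonpos h (by linarith [hξ.2])) (not_le.2 h2)
    rw [hs, lt_div_iff₀ (by linarith)] at h3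
    linarith

end DS

end MP8622
end

section
set_option autoImplicit false

open Classical Filter Topology

/-!
# TRF: transfer of the covariance inequality to the systems of `NU/Defs.lean`
-/

namespace MP8622

namespace DS

namespace TRFM

variable {V : Type}

/-- the couplings -/
noncomputable def Jc (P : Sym2 V → ℝ) (E : Finset (Sym2 V)) (x y : V) : ℝ :=
  if s(x, y) ∈ E ∧ x ≠ y then -Real.log (1 - P s(x, y)) / 4 else 0

theorem Jc_nonneg {P : Sym2 V → ℝ} (h0 : ∀ e, 0 ≤ P e) (h1 : ∀ e, P e < 1) (E : Finset (Sym2 V))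
    (x y : V) : 0 ≤ Jc P E x y := by
  unfold Jc
  split_ifs with h
  · have h2 : Real.log (1 - P s(x, y)) ≤ 0 :=
      Real.log_nonpos (by linarith [h1 s(x, y)]) (by linarith [h0 s(x, y)])
    linarith
  · exact le_rfl

theorem mono_mk (S : Finset V) (x y : V) : Mono S s(x, y) ↔ (x ∈ S ↔ y ∈ S) := by
  unfold Mono
  constructor
  · intro h
    exact h x (Sym2.mem_mk_left x y) y (Sym2.mem_mk_right x y)
  · intro h a ha b hb
    rw [Sym2.mem_iff] at ha hb
    rcases ha with rfl | rfl <;> rcases hb with rfl | rfl <;> tauto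

theorem sp_mul (S : Finset V) (x y : V) :
    sp S x * sp S y = if Mono S s(x, y) then 1 else -1 := by
  rw [mono_mk]
  unfold sp
  by_cases hx : x ∈ S <;> by_cases hy : y ∈ S <;> simp [hx, hy]

/-- sums over ordered pairs and over edges -/
theorem sum_edges (Λ : Finset V) (h : Sym2 V → ℝ) (E : Finset (Sym2 V))
    (hE : ∀ e ∈ E, ∀ z ∈ e, z ∈ Λ) :
    ∑ x ∈ Λ, ∑ y ∈ Λ, (if s(x, y) ∈ E ∧ x ≠ y then h s(x, y) else 0) =
      ∑ e ∈ E, if e.IsDiag then 0 else 2 * h e := by
  induction E using Finset.induction_on with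
  | empty => simp
  | insert e E he ih =>
    rw [Finset.sum_insert he, ← ih fun e' he' => hE e' (Finset.mem_insert_of_mem he')]
    have hsplit : ∀ x y : V, (if s(x, y) ∈ insert e E ∧ x ≠ y then h s(x, y) else 0) =
        (if s(x, y) = e ∧ x ≠ y then h e else 0) +
          (if s(x, y) ∈ E ∧ x ≠ y then h s(x, y) else 0) := by
      intro x y
      by_cases hxy : x = y
      · simp [hxy]
      · by_cases h1 : s(x, y) = e
        · have h2 : s(x, y) ∉ E := by rwa [h1]
          simp [hxy, h1, he]
        · simp [hxy, h1]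
    simp only [hsplit, Finset.sum_add_distrib]
    congr 1
    induction e using Sym2.ind with
    | _ a b =>
      have ha : a ∈ Λ := hE _ (Finset.mem_insert_self _ _) a (Sym2.mem_mk_left a b)
      have hb : b ∈ Λ := hE _ (Finset.mem_insert_self _ _) b (Sym2.mem_mk_right a b)
      by_cases hab : a = b
      · subst hab
        rw [if_pos (by simp)]
        refine Finset.sum_eq_zero fun x _ => Finset.sum_eq_zero fun y _ => if_neg ?_
        rintro ⟨h1, h2⟩
        rw [Sym2.eq_iff] at h1
        rcases h1 with ⟨rfl, rfl⟩ | ⟨rfl, rfl⟩ <;> exact h2 rfl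
      · rw [if_neg (by simpa using hab)]
        have h3 : ∀ x y : V, (if s(x, y) = s(a, b) ∧ x ≠ y then h s(a, b) else 0) =
            (if x = a then (if y = b then h s(a, b) else 0) else 0) +
              (if x = b then (if y = a then h s(a, b) else 0) else 0) := by
          intro x y
          simp only [Sym2.eq_iff]
          by_cases h4 : x = a
          · subst h4
            by_cases h5 : y = b
            · subst h5
              simp [hab]
            · simp [h5, hab]
          · by_cases h6 : x = b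
            · subst h6
              by_cases h7 : y = a
              · subst h7
                simp [hab, Ne.symm hab]
              · simp [h7, h4]
            · simp [h4, h6]
        simp only [h3, Finset.sum_add_distrib]
        rw [two_mul]
        congr 1
        · rw [Finset.sum_eq_single_of_mem a ha fun x _ hx => Finset.sum_eq_zero fun y _ => if_neg hx,
            Finset.sum_eq_single_of_mem b hb fun y _ hy => by rw [if_pos rfl, if_neg hy],
            if_pos rfl, if_pos rfl]
        · rw [Finset.sum_eq_single_of_mem b hb fun x _ hx => Finset.sum_eq_zero fun y _ => if_neg hx,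
            Finset.sum_eq_single_of_mem a ha fun y _ hy => by rw [if_pos rfl, if_neg hy],
            if_pos rfl, if_pos rfl]

/-- the constant -/
noncomputable def Cc (P : Sym2 V → ℝ) (E : Finset (Sym2 V)) : ℝ :=
  ∏ e ∈ E, if e.IsDiag then 1 else Real.exp (-Real.log (1 - P e) / 2)

theorem Cc_pos (P : Sym2 V → ℝ) (E : Finset (Sym2 V)) : 0 < Cc P E := by
  refine Finset.prod_pos fun e _ => ?_
  split_ifs
  · exact one_pos
  · exact Real.exp_pos _

theorem exp_En {P : Sym2 V → ℝ} (h1 : ∀ e, P e < 1) {E : Finset (Sym2 V)} {Λ : Finset V}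
    (hE : ∀ e ∈ E, ∀ z ∈ e, z ∈ Λ) (b : V → ℝ) (S : Finset V) :
    Real.exp (En Λ (Jc P E) b S) = Cc P E * NU.wf P E Λ b S := by
  have hpair : ∀ x y : V, Jc P E x y * (sp S x * sp S y) =
      if s(x, y) ∈ E ∧ x ≠ y then
        (fun e => -Real.log (1 - P e) / 4 * (if Mono S e then 1 else -1)) s(x, y) else 0 := by
    intro x y
    unfold Jc
    rw [sp_mul]
    by_cases h : s(x, y) ∈ E ∧ x ≠ y
    · rw [if_pos h, if_pos h]
    · rw [if_neg h, if_neg h, zero_mul]
  unfold En
  simp only [hpair]
  rw [sum_edges Λ (fun e => -Real.log (1 - P e) / 4 * (if Mono S e then 1 else -1)) E hE,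
    Real.exp_add, Real.exp_sum, Real.exp_sum]
  unfold Cc NU.wf sw
  rw [← mul_assoc, ← Finset.prod_mul_distrib]
  congr 1
  · refine Finset.prod_congr rfl fun e _ => ?_
    by_cases hd : e.IsDiag
    · rw [if_pos hd, if_pos hd, Real.exp_zero, one_mul]
      induction e using Sym2.ind with
      | _ a c =>
        have hac : a = c := by simpa using hd
        subst hac
        rw [if_pos ((mono_mk S a a).2 Iff.rfl)]
    · rw [if_neg hd, if_neg hd]
      by_cases hm : Mono S e
      · rw [if_pos hm, if_pos hm]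
        simp only [mul_one]
        congr 1
        ring
      · rw [if_neg hm, if_neg hm]
        have hpos : 0 < 1 - P e := by linarith [h1 e]
        calc Real.exp (2 * (-Real.log (1 - P e) / 4 * -1)) =
            Real.exp (-Real.log (1 - P e) / 2 + Real.log (1 - P e)) := by
              congr 1
              ring
          _ = Real.exp (-Real.log (1 - P e) / 2) * (1 - P e) := by
              rw [Real.exp_add, Real.exp_log hpos]
  · refine Finset.prod_congr rfl fun x _ => ?_
    rw [sp_eq_chi]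

theorem ex_eq {P : Sym2 V → ℝ} (h1 : ∀ e, P e < 1) {E : Finset (Sym2 V)} {Λ : Finset V}
    (hE : ∀ e ∈ E, ∀ z ∈ e, z ∈ Λ) (b : V → ℝ) (F : Finset V → ℝ) :
    ex Λ (Jc P E) b F =
      (∑ S ∈ Λ.powerset, F S * NU.wf P E Λ b S) / ∑ S ∈ Λ.powerset, NU.wf P E Λ b S := by
  unfold ex Su ZZ
  simp only [exp_En h1 hE]
  have h2 : ∑ S ∈ Λ.powerset, F S * (Cc P E * NU.wf P E Λ b S) =
      Cc P E * ∑ S ∈ Λ.powerset, F S * NU.wf P E Λ b S := by
    rw [Finset.mul_sum]
    exact Finset.sum_congr rfl fun S _ => by ring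
  rw [h2, ← Finset.mul_sum, mul_div_mul_left _ _ (Cc_pos P E).ne']

end TRFM

open TRFM in
/-- TRF -/
theorem specTRF (hCVU : SpecCVU) : SpecTRF := by
  intro V P E Λ b x y h0 h1 hE hx hy hxy
  have h := hCVU V Λ (Jc P E) (Jc_nonneg h0 h1 E) b x y hx hy hxy
  simp only [ex_eq h1 hE, sp_eq_chi] at h
  have h2 : ∀ S : Finset V, NU.wf P E Λ 0 S = sw P E S := by
    intro S
    unfold NU.wf
    simp
  simp only [h2] at h
  unfold cvf NU.mf NU.c2 corr
  simp only [chi_symmDiff_left]
  exact h

end DS

end MP8622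
end
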